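import Mathlib

set_option autoImplicit false

open Polynomial NumberField

namespace Pool.Agent.Results.MP_ab6cf3_nt.EqualDegrees

/-! ### complex estimates -/

/-- an upper bound for a complex polynomial on a disc of radius at least one -/
theorem upperC (P : ℂ[X]) (N : ℕ) (hN : P.natDegree ≤ N) :
    ∃ A : ℝ, 0 ≤ A ∧ ∀ (z : ℂ) (M : ℝ), 1 ≤ M → ‖z‖ ≤ M → ‖eval z P‖ ≤ A * M ^ N := by
  refine ⟨∑ i ∈ Finset.range (P.natDegree + 1), ‖P.coeff i‖,
    Finset.sum_nonneg fun _ _ => norm_nonneg _, ?_⟩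
  intro z M hM hz
  rw [eval_eq_sum_range, Finset.sum_mul]
  refine (norm_sum_le _ _).trans (Finset.sum_le_sum fun i hi => ?_)
  have hi' : i ≤ N := by
    have := Finset.mem_range.mp hi
    omega
  rw [norm_mul, norm_pow]
  refine mul_le_mul_of_nonneg_left ?_ (norm_nonneg _)
  exact (pow_le_pow_left₀ (norm_nonneg _) hz i).trans (pow_le_pow_right₀ hM hi')

/-- a lower bound, with one constant -/
theorem lowerC (f : ℂ[X]) (hd : 1 ≤ f.natDegree) :
    ∃ c : ℝ, 1 ≤ c ∧ ∀ z : ℂ, 2 * c ^ 2 ≤ ‖z‖ → ‖z‖ ^ f.natDegree ≤ 2 * c * ‖eval z f‖ := by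
  obtain ⟨A, hA0, hA⟩ := upperC f.eraseLead (f.natDegree - 1) (eraseLead_natDegree_le f)
  have hl : 0 < ‖f.leadingCoeff‖ := by
    rw [norm_pos_iff, Ne, leadingCoeff_eq_zero]
    rintro rfl
    simp at hd
  refine ⟨max 1 (max A ‖f.leadingCoeff‖⁻¹), le_max_left _ _, ?_⟩
  set c := max 1 (max A ‖f.leadingCoeff‖⁻¹) with hc
  have h1 : 1 ≤ c := le_max_left _ _
  have hAc : A ≤ c := (le_max_left _ _).trans (le_max_right _ _)
  have hlc : 1 ≤ c * ‖f.leadingCoeff‖ := by
    have : ‖f.leadingCoeff‖⁻¹ ≤ c := (le_max_right _ _).trans (le_max_right _ _)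
    rwa [inv_le_iff_one_le_mul₀ hl] at this
  intro z hz
  have hz1 : 1 ≤ ‖z‖ := by nlinarith
  have e : f.leadingCoeff * z ^ f.natDegree = eval z f - eval z f.eraseLead := by
    have h := congrArg (eval z) (eraseLead_add_C_mul_X_pow f)
    simp only [eval_add, eval_mul, eval_C, eval_pow, eval_X] at h
    rw [← h]
    ring
  have h2 : ‖f.leadingCoeff‖ * ‖z‖ ^ f.natDegree ≤ ‖eval z f‖ + ‖eval z f.eraseLead‖ := by
    rw [← norm_pow, ← norm_mul, e]
    exact norm_sub_le _ _
  have h3 := hA z ‖z‖ hz1 le_rfl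
  obtain ⟨m, hm⟩ : ∃ m, f.natDegree = m + 1 := ⟨f.natDegree - 1, by omega⟩
  rw [hm, Nat.add_sub_cancel] at h3
  rw [hm, pow_succ] at h2 ⊢
  have hp : 0 ≤ ‖z‖ ^ m := by positivity
  have h4 : c * (‖f.leadingCoeff‖ * (‖z‖ ^ m * ‖z‖)) ≤ c * (‖eval z f‖ + c * ‖z‖ ^ m) := by
    refine mul_le_mul_of_nonneg_left ?_ (by linarith)
    nlinarith
  have h5 : ‖z‖ ^ m * ‖z‖ ≤ c * (‖f.leadingCoeff‖ * (‖z‖ ^ m * ‖z‖)) := by
    rw [← mul_assoc]
    exact le_mul_of_one_le_left (by positivity) hlc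
  have h6 : 2 * c ^ 2 * ‖z‖ ^ m ≤ ‖z‖ ^ m * ‖z‖ := by nlinarith
  nlinarith

/-- the dominance of `u` over `v` persists under `f` -/
theorem dominanceC (f : ℂ[X]) (hd : 2 ≤ f.natDegree) :
    ∃ l : ℝ, 2 ≤ l ∧ ∀ (u v : ℂ) (M : ℝ), 1 ≤ M → ‖v‖ ≤ M → l * M ≤ ‖u‖ →
      ∀ k : ℕ, (fun z : ℂ => eval z f)^[k] u ≠ (fun z : ℂ => eval z f)^[k] v := by
  obtain ⟨A, hA0, hA⟩ := upperC f f.natDegree le_rfl
  obtain ⟨c₀, hc1, hc⟩ := lowerC f (by omega)
  set c := max c₀ A with hcdef
  have h0c : c₀ ≤ c := le_max_left _ _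
  have hAc : A ≤ c := le_max_right _ _
  have h1c : 1 ≤ c := hc1.trans h0c
  have hc3 : 1 ≤ c ^ 3 := one_le_pow₀ h1c
  have hc23 : c ^ 2 ≤ c ^ 3 := pow_le_pow_right₀ h1c (by norm_num)
  have h0c2 : c₀ ^ 2 ≤ c ^ 2 := pow_le_pow_left₀ (by linarith) h0c 2
  refine ⟨4 * c ^ 3, by linarith, ?_⟩
  intro u v M hM hv hu k
  induction k generalizing u v M with
  | zero =>
    intro h
    simp only [Function.iterate_zero, id_eq] at h
    rw [h] at hu
    nlinarith
  | succ k ih =>
    rw [Function.iterate_succ_apply, Function.iterate_succ_apply]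
    have hU : 2 * c₀ ^ 2 ≤ ‖u‖ := by nlinarith
    have h1 := hc u hU
    have h2 := hA v M hM hv
    have hpM : 1 ≤ M ^ f.natDegree := one_le_pow₀ hM
    have h3 : (4 * c ^ 3) ^ 2 * M ^ f.natDegree ≤ ‖u‖ ^ f.natDegree := by
      calc (4 * c ^ 3) ^ 2 * M ^ f.natDegree ≤ (4 * c ^ 3) ^ f.natDegree * M ^ f.natDegree :=
            mul_le_mul_of_nonneg_right (pow_le_pow_right₀ (by linarith) hd) (by positivity)
        _ = (4 * c ^ 3 * M) ^ f.natDegree := (mul_pow _ _ _).symm
        _ ≤ ‖u‖ ^ f.natDegree := pow_le_pow_left₀ (by positivity) hu _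
    have h4 : 2 * c₀ * ‖eval u f‖ ≤ 2 * c * ‖eval u f‖ :=
      mul_le_mul_of_nonneg_right (by linarith) (norm_nonneg _)
    have h5 : (4 * c ^ 3) ^ 2 * M ^ f.natDegree ≤ 2 * c * ‖eval u f‖ := h3.trans (h1.trans h4)
    refine ih (eval u f) (eval v f) (c * M ^ f.natDegree) ?_ ?_ ?_
    · nlinarith
    · exact h2.trans (mul_le_mul_of_nonneg_right hAc (by positivity))
    · have h6 : c * (4 * c ^ 3 * (c * M ^ f.natDegree)) ≤ c * ‖eval u f‖ := by
        have h7 : c * (4 * c ^ 3 * (c * M ^ f.natDegree)) ≤ 8 * c ^ 6 * M ^ f.natDegree := by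
          have h8 : c ^ 5 ≤ c ^ 6 := pow_le_pow_right₀ h1c (by norm_num)
          have h9 : 4 * c ^ 5 ≤ 8 * c ^ 6 := by
            have : 0 ≤ c ^ 6 := by positivity
            linarith
          calc c * (4 * c ^ 3 * (c * M ^ f.natDegree)) = 4 * c ^ 5 * M ^ f.natDegree := by ring
            _ ≤ 8 * c ^ 6 * M ^ f.natDegree := mul_le_mul_of_nonneg_right h9 (by positivity)
        have h10 : (4 * c ^ 3) ^ 2 * M ^ f.natDegree = 2 * (8 * c ^ 6 * M ^ f.natDegree) := by ring
        rw [h10] at h5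
        nlinarith
      exact le_of_mul_le_mul_left h6 (by linarith)

/-- the archimedean bound -/
theorem arch (f a b : ℂ[X]) (hd : 2 ≤ f.natDegree) (hab : a.natDegree < b.natDegree) :
    ∃ R : ℝ, ∀ (k : ℕ) (z : ℂ),
      (fun z : ℂ => eval z f)^[k] (eval z b) = (fun z : ℂ => eval z f)^[k] (eval z a) →
      ‖z‖ ≤ R := by
  obtain ⟨l, hl2, hl⟩ := dominanceC f hd
  obtain ⟨A, hA0, hA⟩ := upperC a (b.natDegree - 1) (by omega)
  obtain ⟨c, hc1, hc⟩ := lowerC b (by omega)
  refine ⟨2 * c ^ 2 + 2 * c * (l * (A + 1)) + 1, ?_⟩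
  intro k z h
  by_contra hz
  push Not at hz
  have hlA : 0 ≤ 2 * c * (l * (A + 1)) := by positivity
  have hc2 : 1 ≤ c ^ 2 := one_le_pow₀ hc1
  have hz1 : 1 ≤ ‖z‖ := by linarith
  obtain ⟨m, hm⟩ : ∃ m, b.natDegree = m + 1 := ⟨b.natDegree - 1, by omega⟩
  have hp1 : 1 ≤ ‖z‖ ^ m := one_le_pow₀ hz1
  have hAz := hA z ‖z‖ hz1 le_rfl
  have hcz := hc z (by linarith)
  rw [hm, Nat.add_sub_cancel] at hAz
  rw [hm, pow_succ] at hcz
  refine hl (eval z b) (eval z a) ((A + 1) * ‖z‖ ^ m) (by nlinarith) (by nlinarith) ?_ k h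
  have h6 : 2 * c * (l * ((A + 1) * ‖z‖ ^ m)) ≤ 2 * c * ‖eval z b‖ := by
    refine le_trans ?_ hcz
    have : 2 * c * (l * (A + 1)) ≤ ‖z‖ := by linarith
    nlinarith
  exact le_of_mul_le_mul_left h6 (by linarith)

/-- closeness to the leading term -/
theorem nearC (f : ℂ[X]) : ∃ A : ℝ, 0 ≤ A ∧ ∀ (z : ℂ) (M : ℝ), 1 ≤ M → ‖z‖ ≤ M →
    ‖eval z f - f.leadingCoeff * z ^ f.natDegree‖ ≤ A * M ^ (f.natDegree - 1) := by
  obtain ⟨A, hA0, hA⟩ := upperC f.eraseLead (f.natDegree - 1) (eraseLead_natDegree_le f)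
  refine ⟨A, hA0, fun z M hM hz => ?_⟩
  have e : eval z f - f.leadingCoeff * z ^ f.natDegree = eval z f.eraseLead := by
    have h := congrArg (eval z) (eraseLead_add_C_mul_X_pow f)
    simp only [eval_add, eval_mul, eval_C, eval_pow, eval_X] at h
    rw [← h]
    ring
  rw [e]
  exact hA z M hM hz

/-- dominance by any factor greater than one persists, far out -/
theorem dominanceC' (f : ℂ[X]) (hd : 2 ≤ f.natDegree) (l : ℝ) (hl : 1 < l) :
    ∃ R : ℝ, 1 ≤ R ∧ ∀ (u v : ℂ) (M : ℝ), R ≤ M → ‖v‖ ≤ M → l * M ≤ ‖u‖ →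
      ∀ k : ℕ, (fun z : ℂ => eval z f)^[k] u ≠ (fun z : ℂ => eval z f)^[k] v := by
  obtain ⟨A, hA0, hA⟩ := nearC f
  have hp : 0 < ‖f.leadingCoeff‖ := by
    rw [norm_pos_iff, Ne, leadingCoeff_eq_zero]
    rintro rfl
    simp at hd
  set p := ‖f.leadingCoeff‖ with hpdef
  set ε : ℝ := (l - 1) / (l + 1) with hε
  have hε0 : 0 < ε := div_pos (by linarith) (by linarith)
  have hε1 : ε * (l + 1) = l - 1 := by rw [hε]; field_simp
  refine ⟨max 1 (max (A / (ε * p)) (1 / p)), le_max_left _ _, ?_⟩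
  set R := max 1 (max (A / (ε * p)) (1 / p)) with hR
  have hclose : ∀ (z : ℂ) (M : ℝ), R ≤ M → ‖z‖ ≤ M →
      ‖eval z f - f.leadingCoeff * z ^ f.natDegree‖ ≤ ε * p * M ^ f.natDegree := by
    intro z M hM hz
    have h1 : 1 ≤ M := (le_max_left _ _).trans hM
    have h2 : A / (ε * p) ≤ M := ((le_max_left _ _).trans (le_max_right _ _)).trans hM
    rw [div_le_iff₀ (by positivity)] at h2
    refine (hA z M h1 hz).trans ?_
    obtain ⟨m, hm⟩ : ∃ m, f.natDegree = m + 1 := ⟨f.natDegree - 1, by omega⟩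
    rw [hm, Nat.add_sub_cancel, pow_succ]
    have : 0 ≤ M ^ m := by positivity
    nlinarith
  intro u v M hM hv hu k
  induction k generalizing u v M with
  | zero =>
    intro h
    simp only [Function.iterate_zero, id_eq] at h
    have h1 : 1 ≤ M := (le_max_left _ _).trans hM
    rw [h] at hu
    nlinarith
  | succ k ih =>
    rw [Function.iterate_succ_apply, Function.iterate_succ_apply]
    have h1 : 1 ≤ M := (le_max_left _ _).trans hM
    have hpM : 1 ≤ p * M := by
      have : 1 / p ≤ M := ((le_max_right _ _).trans (le_max_right _ _)).trans hM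
      rwa [div_le_iff₀' hp] at this
    have hMU : M ≤ ‖u‖ := by nlinarith
    have hcu := hclose u ‖u‖ (hM.trans hMU) le_rfl
    have hcv := hclose v M hM hv
    have hMd : M * M ≤ M ^ f.natDegree := by
      rw [← sq]
      exact pow_le_pow_right₀ h1 hd
    have h3 : l ^ 2 * M ^ f.natDegree ≤ ‖u‖ ^ f.natDegree := by
      calc l ^ 2 * M ^ f.natDegree ≤ l ^ f.natDegree * M ^ f.natDegree :=
            mul_le_mul_of_nonneg_right (pow_le_pow_right₀ hl.le hd) (by positivity)
        _ = (l * M) ^ f.natDegree := (mul_pow _ _ _).symm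
        _ ≤ ‖u‖ ^ f.natDegree := pow_le_pow_left₀ (by positivity) hu _
    refine ih (eval u f) (eval v f) ((1 + ε) * p * M ^ f.natDegree) ?_ ?_ ?_
    · calc R ≤ M := hM
        _ ≤ p * M * M := by nlinarith
        _ = p * (M * M) := by ring
        _ ≤ p * M ^ f.natDegree := mul_le_mul_of_nonneg_left hMd hp.le
        _ ≤ (1 + ε) * p * M ^ f.natDegree := by
            have : 0 ≤ ε * (p * M ^ f.natDegree) := by positivity
            nlinarith
    · have h5 : ‖eval v f‖ ≤ ‖eval v f - f.leadingCoeff * v ^ f.natDegree‖ +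
          ‖f.leadingCoeff * v ^ f.natDegree‖ := by
        simpa using norm_add_le (eval v f - f.leadingCoeff * v ^ f.natDegree)
          (f.leadingCoeff * v ^ f.natDegree)
      have h6 : ‖f.leadingCoeff * v ^ f.natDegree‖ ≤ p * M ^ f.natDegree := by
        rw [norm_mul, norm_pow]
        exact mul_le_mul_of_nonneg_left (pow_le_pow_left₀ (norm_nonneg _) hv _) hp.le
      linarith
    · have h5 : ‖f.leadingCoeff * u ^ f.natDegree‖ -
          ‖eval u f - f.leadingCoeff * u ^ f.natDegree‖ ≤ ‖eval u f‖ := by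
        have := norm_sub_norm_le (f.leadingCoeff * u ^ f.natDegree)
          (f.leadingCoeff * u ^ f.natDegree - eval u f)
        rw [sub_sub_cancel, norm_sub_rev (f.leadingCoeff * u ^ f.natDegree) (eval u f)] at this
        exact this
      rw [norm_mul, norm_pow] at h5
      have hε2 : 0 ≤ 1 - ε := by nlinarith
      have h7 : (1 - ε) * p * (l ^ 2 * M ^ f.natDegree) ≤ (1 - ε) * p * ‖u‖ ^ f.natDegree :=
        mul_le_mul_of_nonneg_left h3 (by positivity)
      have h8 : (1 - ε) * l = 1 + ε := by linarith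
      calc l * ((1 + ε) * p * M ^ f.natDegree)
          = (1 - ε) * p * (l ^ 2 * M ^ f.natDegree) := by rw [← h8]; ring
        _ ≤ (1 - ε) * p * ‖u‖ ^ f.natDegree := h7
        _ ≤ ‖eval u f‖ := by linarith

/-- the archimedean bound for equal degrees and leading coefficients of different size -/
theorem archEq (f a b : ℂ[X]) (hd : 2 ≤ f.natDegree) (hab : a.natDegree = b.natDegree)
    (hb : 1 ≤ b.natDegree) (hl : ‖a.leadingCoeff‖ < ‖b.leadingCoeff‖) :
    ∃ R : ℝ, ∀ (k : ℕ) (z : ℂ),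
      (fun z : ℂ => eval z f)^[k] (eval z b) = (fun z : ℂ => eval z f)^[k] (eval z a) →
      ‖z‖ ≤ R := by
  set q := ‖a.leadingCoeff‖ with hq
  set p := ‖b.leadingCoeff‖ with hp
  have hq0 : 0 < q := by
    rw [hq, norm_pos_iff, Ne, leadingCoeff_eq_zero]
    rintro rfl
    simp at hab
    omega
  obtain ⟨A, hA0, hA⟩ := nearC a
  obtain ⟨B, hB0, hB⟩ := nearC b
  set x := (2 * q + p) / 3 with hx
  set y := (q + 2 * p) / 3 with hy
  have hx0 : 0 < x := by linarith
  have hxy : x < y := by linarith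
  obtain ⟨R₁, hR1, hR⟩ := dominanceC' f hd (y / x) ((one_lt_div hx0).mpr hxy)
  set e := (p - q) / 3 with he
  have he0 : 0 < e := by linarith
  refine ⟨1 + A / e + B / e + R₁ / x, ?_⟩
  intro k z h
  by_contra hz
  push Not at hz
  have t1 : 0 ≤ A / e := by positivity
  have t2 : 0 ≤ B / e := by positivity
  have t3 : 0 ≤ R₁ / x := by positivity
  have hz1 : 1 ≤ ‖z‖ := by linarith
  have hAe : A ≤ ‖z‖ * e := by
    rw [← div_le_iff₀ he0]; linarith
  have hBe : B ≤ ‖z‖ * e := by
    rw [← div_le_iff₀ he0]; linarith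
  have hRx : R₁ ≤ ‖z‖ * x := by
    rw [← div_le_iff₀ hx0]; linarith
  obtain ⟨m, hm⟩ : ∃ m, b.natDegree = m + 1 := ⟨b.natDegree - 1, by omega⟩
  have hp1 : 1 ≤ ‖z‖ ^ m := one_le_pow₀ hz1
  have hAz := hA z ‖z‖ hz1 le_rfl
  have hBz := hB z ‖z‖ hz1 le_rfl
  rw [hab] at hAz
  rw [hm, Nat.add_sub_cancel] at hAz hBz
  have ha1 : ‖eval z a‖ ≤ x * ‖z‖ ^ (m + 1) := by
    have h5 : ‖eval z a‖ ≤ ‖eval z a - a.leadingCoeff * z ^ (m + 1)‖ +
        ‖a.leadingCoeff * z ^ (m + 1)‖ := by
      simpa using norm_add_le (eval z a - a.leadingCoeff * z ^ (m + 1))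
        (a.leadingCoeff * z ^ (m + 1))
    rw [norm_mul, norm_pow, ← hq] at h5
    have h6 : A * ‖z‖ ^ m ≤ e * ‖z‖ ^ (m + 1) := by
      rw [pow_succ]; nlinarith
    have h7 : x = q + e := by rw [hx, he]; ring
    rw [h7]
    linarith
  have hb1 : y * ‖z‖ ^ (m + 1) ≤ ‖eval z b‖ := by
    have h5 : ‖b.leadingCoeff * z ^ (m + 1)‖ - ‖eval z b - b.leadingCoeff * z ^ (m + 1)‖ ≤
        ‖eval z b‖ := by
      have := norm_sub_norm_le (b.leadingCoeff * z ^ (m + 1))
        (b.leadingCoeff * z ^ (m + 1) - eval z b)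
      rw [sub_sub_cancel, norm_sub_rev (b.leadingCoeff * z ^ (m + 1)) (eval z b)] at this
      exact this
    rw [norm_mul, norm_pow, ← hp] at h5
    have h6 : B * ‖z‖ ^ m ≤ e * ‖z‖ ^ (m + 1) := by
      rw [pow_succ]; nlinarith
    have h7 : y = p - e := by rw [hy, he]; ring
    rw [h7]
    linarith
  refine hR (eval z b) (eval z a) (x * ‖z‖ ^ (m + 1)) ?_ ha1 ?_ k h
  · calc R₁ ≤ ‖z‖ * x := hRx
      _ ≤ ‖z‖ ^ (m + 1) * x := by
          refine mul_le_mul_of_nonneg_right ?_ hx0.le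
          rw [pow_succ]; nlinarith
      _ = x * ‖z‖ ^ (m + 1) := by ring
  · calc y / x * (x * ‖z‖ ^ (m + 1)) = y * ‖z‖ ^ (m + 1) := by field_simp
      _ ≤ ‖eval z b‖ := hb1

/-! ### non-archimedean estimates -/

section nonarch

variable {L : Type*} [Field L] (w : AbsoluteValue L ℝ) (hw : ∀ x y : L, w (x + y) ≤ max (w x) (w y))

include hw

theorem sum_le_of_forall {ι : Type*} (s : Finset ι) (g : ι → L) (B : ℝ) (hB : 0 ≤ B)
    (h : ∀ i ∈ s, w (g i) ≤ B) : w (∑ i ∈ s, g i) ≤ B := by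
  classical
  induction s using Finset.induction_on with
  | empty => simpa using hB
  | insert i s hi ih =>
    rw [Finset.sum_insert hi]
    refine (hw _ _).trans (max_le (h i (Finset.mem_insert_self i s)) ?_)
    exact ih fun j hj => h j (Finset.mem_insert_of_mem hj)

theorem upperN (P : L[X]) (c : ℝ) (hc0 : 0 ≤ c) (hc : ∀ i, w (P.coeff i) ≤ c) (N : ℕ)
    (hN : P.natDegree ≤ N) (z : L) (M : ℝ) (hM : 1 ≤ M) (hz : w z ≤ M) :
    w (eval z P) ≤ c * M ^ N := by
  rw [eval_eq_sum_range]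
  refine sum_le_of_forall w hw _ _ _ (by positivity) fun i hi => ?_
  have hi' : i ≤ N := by
    have := Finset.mem_range.mp hi
    omega
  rw [map_mul, map_pow]
  refine mul_le_mul (hc i) ?_ (pow_nonneg (apply_nonneg w z) i) hc0
  exact (pow_le_pow_left₀ (apply_nonneg w z) hz i).trans (pow_le_pow_right₀ hM hi')

theorem lowerN (f : L[X]) (hd : 1 ≤ f.natDegree) (c : ℝ) (hc1 : 1 ≤ c)
    (hc : ∀ i, w (f.coeff i) ≤ c) (hl : 1 ≤ c * w f.leadingCoeff) (z : L) (hz : c ^ 2 < w z) :
    w z ^ f.natDegree ≤ c * w (eval z f) := by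
  have hz1 : 1 ≤ w z := by nlinarith
  have e : f.leadingCoeff * z ^ f.natDegree = eval z f + -eval z f.eraseLead := by
    have h := congrArg (eval z) (eraseLead_add_C_mul_X_pow f)
    simp only [eval_add, eval_mul, eval_C, eval_pow, eval_X] at h
    rw [← h]
    ring
  have hce : ∀ i, w (f.eraseLead.coeff i) ≤ c := by
    intro i
    rw [eraseLead_coeff]
    split_ifs
    · rw [map_zero]; linarith
    · exact hc i
  have h3 := upperN w hw f.eraseLead c (by linarith) hce (f.natDegree - 1)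
    (eraseLead_natDegree_le f) z (w z) hz1 le_rfl
  have h2 : w f.leadingCoeff * w z ^ f.natDegree ≤ max (w (eval z f)) (w (eval z f.eraseLead)) := by
    rw [← map_pow, ← map_mul, e]
    refine (hw _ _).trans ?_
    rw [AbsoluteValue.map_neg]
  obtain ⟨m, hm⟩ : ∃ m, f.natDegree = m + 1 := ⟨f.natDegree - 1, by omega⟩
  rw [hm, Nat.add_sub_cancel] at h3
  rw [hm, pow_succ] at h2 ⊢
  have hp : 0 < w z ^ m := by positivity
  have h5 : w z ^ m * w z ≤ c * (w f.leadingCoeff * (w z ^ m * w z)) := by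
    rw [← mul_assoc]
    exact le_mul_of_one_le_left (by positivity) hl
  rcases le_max_iff.mp h2 with h | h
  · exact h5.trans (mul_le_mul_of_nonneg_left h (by linarith))
  · exfalso
    have h6 : c * (w f.leadingCoeff * (w z ^ m * w z)) ≤ c * (c * w z ^ m) :=
      mul_le_mul_of_nonneg_left (h.trans h3) (by linarith)
    nlinarith

theorem dominanceN (f : L[X]) (hd : 2 ≤ f.natDegree) (c : ℝ) (hc1 : 1 ≤ c)
    (hc : ∀ i, w (f.coeff i) ≤ c) (hl : 1 ≤ c * w f.leadingCoeff) (k : ℕ) :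
    ∀ (u v : L) (M : ℝ), 1 ≤ M → w v ≤ M → c ^ 3 * M < w u →
      (fun z : L => eval z f)^[k] u ≠ (fun z : L => eval z f)^[k] v := by
  have hc3 : 1 ≤ c ^ 3 := one_le_pow₀ hc1
  have hc23 : c ^ 2 ≤ c ^ 3 := pow_le_pow_right₀ hc1 (by norm_num)
  induction k with
  | zero =>
    intro u v M hM hv hu h
    simp only [Function.iterate_zero, id_eq] at h
    rw [h] at hu
    nlinarith
  | succ k ih =>
    intro u v M hM hv hu
    rw [Function.iterate_succ_apply, Function.iterate_succ_apply]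
    have hU : c ^ 2 < w u := by nlinarith
    have h1 := lowerN w hw f (by omega) c hc1 hc hl u hU
    have h2 := upperN w hw f c (by linarith) hc f.natDegree le_rfl v M hM hv
    have hpM : 1 ≤ M ^ f.natDegree := one_le_pow₀ hM
    have h3 : (c ^ 3) ^ 2 * M ^ f.natDegree < w u ^ f.natDegree := by
      calc (c ^ 3) ^ 2 * M ^ f.natDegree ≤ (c ^ 3) ^ f.natDegree * M ^ f.natDegree :=
            mul_le_mul_of_nonneg_right (pow_le_pow_right₀ hc3 hd) (by positivity)
        _ = (c ^ 3 * M) ^ f.natDegree := (mul_pow _ _ _).symm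
        _ < w u ^ f.natDegree := pow_lt_pow_left₀ hu (by positivity) (by omega)
    refine ih (eval u f) (eval v f) (c * M ^ f.natDegree) (by nlinarith) h2 ?_
    have h6 : c * (c ^ 3 * (c * M ^ f.natDegree)) < c * w (eval u f) := by
      have h8 : c ^ 5 ≤ c ^ 6 := pow_le_pow_right₀ hc1 (by norm_num)
      calc c * (c ^ 3 * (c * M ^ f.natDegree)) = c ^ 5 * M ^ f.natDegree := by ring
        _ ≤ c ^ 6 * M ^ f.natDegree := mul_le_mul_of_nonneg_right h8 (by positivity)
        _ = (c ^ 3) ^ 2 * M ^ f.natDegree := by ring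
        _ < c * w (eval u f) := h3.trans_le h1
    exact lt_of_mul_lt_mul_left h6 (by linarith)

theorem nonarch (f a b : L[X]) (hd : 2 ≤ f.natDegree) (hab : a.natDegree < b.natDegree) (c : ℝ)
    (hc1 : 1 ≤ c) (hcf : ∀ i, w (f.coeff i) ≤ c) (hlf : 1 ≤ c * w f.leadingCoeff)
    (hca : ∀ i, w (a.coeff i) ≤ c) (hcb : ∀ i, w (b.coeff i) ≤ c)
    (hlb : 1 ≤ c * w b.leadingCoeff) (k : ℕ) (z : L)
    (h : (fun z : L => eval z f)^[k] (eval z b) = (fun z : L => eval z f)^[k] (eval z a)) :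
    w z ≤ c ^ 5 := by
  by_contra hz
  push Not at hz
  have hc5 : 1 ≤ c ^ 5 := one_le_pow₀ hc1
  have hc25 : c ^ 2 ≤ c ^ 5 := pow_le_pow_right₀ hc1 (by norm_num)
  have hz1 : 1 ≤ w z := by linarith
  obtain ⟨m, hm⟩ : ∃ m, b.natDegree = m + 1 := ⟨b.natDegree - 1, by omega⟩
  have hp1 : 1 ≤ w z ^ m := one_le_pow₀ hz1
  have h2 := upperN w hw a c (by linarith) hca m (by omega) z (w z) hz1 le_rfl
  have h1 := lowerN w hw b (by omega) c hc1 hcb hlb z (by linarith)
  rw [hm, pow_succ] at h1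
  refine dominanceN w hw f hd c hc1 hcf hlf k (eval z b) (eval z a) (c * w z ^ m) (by nlinarith)
    h2 ?_ h
  have h6 : c * (c ^ 3 * (c * w z ^ m)) < c * w (eval z b) := by
    calc c * (c ^ 3 * (c * w z ^ m)) = c ^ 5 * w z ^ m := by ring
      _ < w z ^ m * w z := by nlinarith
      _ ≤ c * w (eval z b) := h1
  exact lt_of_mul_lt_mul_left h6 (by linarith)

theorem lowerN' (f : L[X]) (hd : 1 ≤ f.natDegree) (c : ℝ) (hc1 : 1 ≤ c)
    (hc : ∀ i, w (f.coeff i) ≤ c) (hl : 1 ≤ c * w f.leadingCoeff) (z : L) (hz : c ^ 2 < w z) :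
    w f.leadingCoeff * w z ^ f.natDegree ≤ w (eval z f) ∧
      w (eval z f) ≤ w f.leadingCoeff * w z ^ f.natDegree := by
  have hz1 : 1 ≤ w z := by nlinarith
  have e : f.leadingCoeff * z ^ f.natDegree = eval z f + -eval z f.eraseLead := by
    have h := congrArg (eval z) (eraseLead_add_C_mul_X_pow f)
    simp only [eval_add, eval_mul, eval_C, eval_pow, eval_X] at h
    rw [← h]
    ring
  have hce : ∀ i, w (f.eraseLead.coeff i) ≤ c := by
    intro i
    rw [eraseLead_coeff]
    split_ifs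
    · rw [map_zero]; linarith
    · exact hc i
  have h3 := upperN w hw f.eraseLead c (by linarith) hce (f.natDegree - 1)
    (eraseLead_natDegree_le f) z (w z) hz1 le_rfl
  have h2 : w f.leadingCoeff * w z ^ f.natDegree ≤ max (w (eval z f)) (w (eval z f.eraseLead)) := by
    rw [← map_pow, ← map_mul, e]
    refine (hw _ _).trans ?_
    rw [AbsoluteValue.map_neg]
  have h2' : w (eval z f) ≤
      max (w f.leadingCoeff * w z ^ f.natDegree) (w (eval z f.eraseLead)) := by
    rw [← map_pow, ← map_mul]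
    have e' : eval z f = f.leadingCoeff * z ^ f.natDegree + eval z f.eraseLead := by
      rw [e]; ring
    calc w (eval z f) = w (f.leadingCoeff * z ^ f.natDegree + eval z f.eraseLead) := by rw [← e']
      _ ≤ _ := hw _ _
  obtain ⟨m, hm⟩ : ∃ m, f.natDegree = m + 1 := ⟨f.natDegree - 1, by omega⟩
  rw [hm, Nat.add_sub_cancel] at h3
  rw [hm, pow_succ] at h2 h2' ⊢
  have hp : 0 < w z ^ m := by positivity
  have h5 : w z ^ m * w z ≤ c * (w f.leadingCoeff * (w z ^ m * w z)) := by
    rw [← mul_assoc]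
    exact le_mul_of_one_le_left (by positivity) hl
  have h6 : w (eval z f.eraseLead) < w f.leadingCoeff * (w z ^ m * w z) := by
    have h7 : c * (c * w z ^ m) < c * (w f.leadingCoeff * (w z ^ m * w z)) := by nlinarith
    exact h3.trans_lt (lt_of_mul_lt_mul_left h7 (by linarith))
  constructor
  · rcases le_max_iff.mp h2 with h | h
    · exact h
    · exact absurd h (not_le.mpr h6)
  · rwa [max_eq_left h6.le] at h2'

theorem dominanceN' (f : L[X]) (hd : 2 ≤ f.natDegree) (c : ℝ) (hc1 : 1 ≤ c)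
    (hc : ∀ i, w (f.coeff i) ≤ c) (hl : 1 ≤ c * w f.leadingCoeff) (k : ℕ) :
    ∀ (u v : L) (M : ℝ), c ^ 3 ≤ M → w v ≤ M → M < w u →
      (fun z : L => eval z f)^[k] u ≠ (fun z : L => eval z f)^[k] v := by
  have hc3 : 1 ≤ c ^ 3 := one_le_pow₀ hc1
  have hc23 : c ^ 2 ≤ c ^ 3 := pow_le_pow_right₀ hc1 (by norm_num)
  have hl0 : 0 < w f.leadingCoeff := by
    by_contra h
    push Not at h
    nlinarith
  induction k with
  | zero =>
    intro u v M hM hv hu h
    simp only [Function.iterate_zero, id_eq] at h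
    rw [h] at hu
    linarith
  | succ k ih =>
    intro u v M hM hv hu
    rw [Function.iterate_succ_apply, Function.iterate_succ_apply]
    have hM0 : 0 ≤ M := by linarith
    have hM1 : 1 ≤ M := by linarith
    have hpow : c * c ^ 3 ≤ M ^ f.natDegree ∧ c * (c * (c ^ 2) ^ f.natDegree) ≤ M ^ f.natDegree := by
      constructor
      · calc c * c ^ 3 ≤ c ^ 3 * c ^ 3 := by
              refine mul_le_mul_of_nonneg_right ?_ (by positivity)
              exact le_self_pow₀ hc1 (by norm_num)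
          _ = (c ^ 3) ^ 2 := by ring
          _ ≤ M ^ 2 := pow_le_pow_left₀ (by positivity) hM 2
          _ ≤ M ^ f.natDegree := pow_le_pow_right₀ hM1 hd
      · calc c * (c * (c ^ 2) ^ f.natDegree) = c ^ (2 * f.natDegree + 2) := by
              rw [← pow_mul]; ring
          _ ≤ c ^ (3 * f.natDegree) := pow_le_pow_right₀ hc1 (by omega)
          _ = (c ^ 3) ^ f.natDegree := by rw [pow_mul]
          _ ≤ M ^ f.natDegree := pow_le_pow_left₀ (by positivity) hM _
    have hcl : M ^ f.natDegree ≤ c * (w f.leadingCoeff * M ^ f.natDegree) := by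
      rw [← mul_assoc]
      exact le_mul_of_one_le_left (by positivity) hl
    have hU : c ^ 2 < w u := by linarith
    refine ih (eval u f) (eval v f) (w f.leadingCoeff * M ^ f.natDegree) ?_ ?_ ?_
    · exact le_of_mul_le_mul_left (hpow.1.trans hcl) (by linarith)
    · rcases le_or_gt (w v) (c ^ 2) with h | h
      · have h1 := upperN w hw f c (by linarith) hc f.natDegree le_rfl v (c ^ 2)
          (one_le_pow₀ hc1) h
        exact h1.trans (le_of_mul_le_mul_left (hpow.2.trans hcl) (by linarith))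
      · refine (lowerN' w hw f (by omega) c hc1 hc hl v h).2.trans ?_
        exact mul_le_mul_of_nonneg_left (pow_le_pow_left₀ (apply_nonneg w v) hv _) hl0.le
    · refine lt_of_lt_of_le ?_ (lowerN' w hw f (by omega) c hc1 hc hl u hU).1
      exact mul_lt_mul_of_pos_left (pow_lt_pow_left₀ hu hM0 (by omega)) hl0

theorem nonarchEq (f a b : L[X]) (hd : 2 ≤ f.natDegree) (hab : a.natDegree = b.natDegree)
    (hb : 1 ≤ b.natDegree) (c : ℝ)
    (hc1 : 1 ≤ c) (hcf : ∀ i, w (f.coeff i) ≤ c) (hlf : 1 ≤ c * w f.leadingCoeff)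
    (hca : ∀ i, w (a.coeff i) ≤ c) (hla : 1 ≤ c * w a.leadingCoeff)
    (hcb : ∀ i, w (b.coeff i) ≤ c)
    (hlb : 1 ≤ c * w b.leadingCoeff) (hlt : w a.leadingCoeff < w b.leadingCoeff) (k : ℕ) (z : L)
    (h : (fun z : L => eval z f)^[k] (eval z b) = (fun z : L => eval z f)^[k] (eval z a)) :
    w z ≤ c ^ 5 := by
  by_contra hz
  push Not at hz
  have hc45 : c ^ 4 ≤ c ^ 5 := pow_le_pow_right₀ hc1 (by norm_num)
  have hc25 : c ^ 2 ≤ c ^ 5 := pow_le_pow_right₀ hc1 (by norm_num)
  have hc2 : 1 ≤ c ^ 2 := one_le_pow₀ hc1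
  have hz1 : 1 ≤ w z := by linarith
  have hzm : w z ≤ w z ^ b.natDegree := le_self_pow₀ hz1 (by omega)
  have h2 := (lowerN' w hw a (by omega) c hc1 hca hla z (by linarith)).2
  have h1 := (lowerN' w hw b (by omega) c hc1 hcb hlb z (by linarith)).1
  rw [hab] at h2
  refine dominanceN' w hw f hd c hc1 hcf hlf k (eval z b) (eval z a)
    (w a.leadingCoeff * w z ^ b.natDegree) ?_ h2 ?_ h
  · have h3 : w z ^ b.natDegree ≤ c * (w a.leadingCoeff * w z ^ b.natDegree) := by
      rw [← mul_assoc]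
      exact le_mul_of_one_le_left (by positivity) hla
    have h4 : c * c ^ 3 ≤ c * (w a.leadingCoeff * w z ^ b.natDegree) := by
      have : c * c ^ 3 = c ^ 4 := by ring
      linarith
    exact le_of_mul_le_mul_left h4 (by linarith)
  · refine lt_of_lt_of_le ?_ h1
    exact mul_lt_mul_of_pos_right hlt (by positivity)

end nonarch

/-! ### heights -/

section heights

variable {L : Type*} [Field L] [NumberField L]

theorem finitePlace_le_one (w : FinitePlace L) (x : L) (hx : IsIntegral ℤ x) : w x ≤ 1 := by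
  have := FinitePlace.norm_le_one L w.maximalIdeal (⟨x, hx⟩ : 𝓞 L)
  rw [← FinitePlace.norm_embedding_eq]
  exact this

/-- the height of an element that is integral at the finite places -/
theorem height (t : L) (ht : ∀ w : FinitePlace L, w t ≤ 1) (R : ℝ)
    (hR : 1 ≤ R) (h : ∀ φ : L →+* ℂ, ‖φ t‖ ≤ R) :
    Height.logHeight₁ t ≤ Real.log R * Module.finrank ℚ L := by
  rw [NumberField.logHeight₁_eq]
  have hfin : (∑ᶠ v : FinitePlace L, Real.posLog (v t)) = 0 := by
    apply finsum_eq_zero_of_forall_eq_zero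
    intro v
    apply Real.posLog_eq_zero_iff _ |>.mpr
    rw [abs_of_nonneg (apply_nonneg v t)]
    exact ht v
  rw [hfin, add_zero, ← InfinitePlace.sum_mult_eq, Nat.cast_sum, Finset.mul_sum]
  refine Finset.sum_le_sum fun v _ => ?_
  rw [mul_comm (Real.log R)]
  refine mul_le_mul_of_nonneg_left ?_ (Nat.cast_nonneg _)
  rw [← Real.posLog_eq_log (by rw [abs_of_nonneg (by linarith)]; exact hR)]
  apply Real.posLog_le_posLog (apply_nonneg v t)
  rw [← InfinitePlace.norm_embedding_eq]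
  exact h v.embedding

/-- `x` has denominator dividing `N` at the finite places and size at most `R` at the others -/
def Bd (N : ℕ) (R : ℝ) (x : L) : Prop :=
  (∀ w : FinitePlace L, w (N : L) * w x ≤ 1) ∧ ∀ φ : L →+* ℂ, ‖φ x‖ ≤ R

theorem height_of_bd (N : ℕ) (hN : 1 ≤ N) (R : ℝ) (x : L) (h : Bd N R x) :
    Height.logHeight₁ x ≤ (Real.log (max 1 (N * R)) + Real.log N) * Module.finrank ℚ L := by
  have hN0 : (N : L) ≠ 0 := by
    rw [Nat.cast_ne_zero]
    omega
  have e : x = (N : L) * x * (N : L)⁻¹ := by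
    field_simp
  have h1 : Height.logHeight₁ ((N : L) * x) ≤
      Real.log (max 1 (N * R)) * Module.finrank ℚ L := by
    refine height _ (fun w => ?_) _ (le_max_left _ _) fun φ => ?_
    · rw [map_mul]
      exact h.1 w
    · rw [map_mul, norm_mul, map_natCast, Complex.norm_natCast]
      exact (mul_le_mul_of_nonneg_left (h.2 φ) (Nat.cast_nonneg _)).trans (le_max_right _ _)
  have h2 : Height.logHeight₁ (N : L) ≤ Real.log N * Module.finrank ℚ L := by
    refine height _ (fun w => finitePlace_le_one w _ ?_) _ (by exact_mod_cast hN) fun φ => ?_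
    · exact isIntegral_algebraMap (R := ℤ) (x := (N : ℤ)) |> fun h => by simpa using h
    · rw [map_natCast, Complex.norm_natCast]
  calc Height.logHeight₁ x = Height.logHeight₁ ((N : L) * x * (N : L)⁻¹) := by rw [← e]
    _ ≤ Height.logHeight₁ ((N : L) * x) + Height.logHeight₁ (N : L)⁻¹ :=
        Height.logHeight₁_mul_le _ _
    _ = Height.logHeight₁ ((N : L) * x) + Height.logHeight₁ (N : L) := by
        rw [Height.logHeight₁_inv]
    _ ≤ _ := by
        rw [add_mul]
        exact add_le_add h1 h2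

end heights

section clear

variable {K : Type*} [Field K] [NumberField K]

theorem clear_finset (s : Finset K) :
    ∃ N : ℕ, 1 ≤ N ∧ ∀ x ∈ s, IsIntegral ℤ ((N : K) * x) := by
  have : Algebra.IsAlgebraic ℤ K := (IsFractionRing.comap_isAlgebraic_iff (K := ℚ)).mpr inferInstance
  obtain ⟨y, hy, h⟩ := Algebra.IsAlgebraic.exists_integral_multiples ℤ s
  refine ⟨y.natAbs, by have := Int.natAbs_pos.mpr hy; omega, fun x hx => ?_⟩
  have h1 := h x hx
  rw [zsmul_eq_mul] at h1
  rcases Int.natAbs_eq y with h2 | h2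
  · rw [h2] at h1
    simpa using h1
  · rw [h2] at h1
    have := h1.neg
    simpa using this

theorem clear_poly (P : K[X]) :
    ∃ N : ℕ, 1 ≤ N ∧ (∀ i, IsIntegral ℤ ((N : K) * P.coeff i)) ∧
      IsIntegral ℤ ((N : K) * P.leadingCoeff⁻¹) := by
  classical
  obtain ⟨N, hN, h⟩ := clear_finset
    (insert P.leadingCoeff⁻¹ ((Finset.range (P.natDegree + 1)).image P.coeff))
  refine ⟨N, hN, fun i => ?_, h _ (Finset.mem_insert_self _ _)⟩
  by_cases hi : i ≤ P.natDegree
  · refine h _ (Finset.mem_insert_of_mem (Finset.mem_image.mpr ⟨i, ?_, rfl⟩))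
    exact Finset.mem_range.mpr (by omega)
  · rw [coeff_eq_zero_of_natDegree_lt (by omega), mul_zero]
    exact isIntegral_zero

theorem finite_const {α : Type*} [Finite α] (R : α → ℝ) : ∃ B : ℝ, ∀ i, R i ≤ B := by
  obtain ⟨B, hB⟩ := (Set.finite_range R).bddAbove
  exact ⟨B, fun i => hB ⟨i, rfl⟩⟩

end clear

/-! ### the equation -/

section main

variable {K : Type*} [Field K] [NumberField K]

omit [NumberField K] in
/-- the absolute values at a finite place of the coefficients, from a common denominator -/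
theorem coeff_le {L : Type*} [Field L] [NumberField L] [Algebra K L] (P : K[X]) (N : ℕ)
    (hN : 1 ≤ N) (h : ∀ i, IsIntegral ℤ ((N : K) * P.coeff i))
    (hl : IsIntegral ℤ ((N : K) * P.leadingCoeff⁻¹)) (w : FinitePlace L) :
    0 < w (N : L) ∧ 1 ≤ (w (N : L))⁻¹ ∧
      (∀ i, w ((P.map (algebraMap K L)).coeff i) ≤ (w (N : L))⁻¹) ∧
      (P ≠ 0 → 1 ≤ (w (N : L))⁻¹ * w (P.map (algebraMap K L)).leadingCoeff) := by
  have hN0 : (N : L) ≠ 0 := by
    rw [Nat.cast_ne_zero]
    omega
  have hw0 : 0 < w (N : L) := FinitePlace.pos_iff.mpr hN0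
  have hw1 : w (N : L) ≤ 1 := by
    refine finitePlace_le_one w _ ?_
    exact isIntegral_algebraMap (R := ℤ) (x := (N : ℤ)) |> fun h => by simpa using h
  refine ⟨hw0, (one_le_inv₀ hw0).mpr hw1, fun i => ?_, fun hP => ?_⟩
  · rw [← one_div, le_div_iff₀' hw0, coeff_map, ← map_mul]
    refine finitePlace_le_one w _ ?_
    have := (h i).map (IsScalarTower.toAlgHom ℤ K L)
    simpa using this
  · have h1 : w (N : L) * w (algebraMap K L P.leadingCoeff⁻¹) ≤ 1 := by
      rw [← map_mul]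
      refine finitePlace_le_one w _ ?_
      have := hl.map (IsScalarTower.toAlgHom ℤ K L)
      simpa using this
    have hl0 : 0 < w (algebraMap K L P.leadingCoeff) := by
      rw [FinitePlace.pos_iff, Ne, map_eq_zero, leadingCoeff_eq_zero]
      exact hP
    rw [map_inv₀, map_inv₀, ← div_eq_mul_inv, div_le_one hl0] at h1
    rw [leadingCoeff_map, ← div_eq_inv_mul, one_le_div hw0]
    exact h1

theorem bd_of_eq (f a b : K[X]) (hd : 2 ≤ f.natDegree) (hab : a.natDegree < b.natDegree) :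
    ∃ (N : ℕ) (R : ℝ), 1 ≤ N ∧
      ∀ (L : Type*) [Field L] [NumberField L] [Algebra K L] (k : ℕ) (t : L),
      (fun z : L => aeval z f)^[k] (aeval t b) = (fun z : L => aeval z f)^[k] (aeval t a) →
      Bd N R t := by
  have hf0 : f ≠ 0 := by
    rintro rfl
    simp at hd
  have hb0 : b ≠ 0 := by
    rintro rfl
    simp at hab
  obtain ⟨Nf, hNf, hf1, hf2⟩ := clear_poly f
  obtain ⟨Na, hNa, ha1, ha2⟩ := clear_poly a
  obtain ⟨Nb, hNb, hb1, hb2⟩ := clear_poly b
  have harch : ∀ σ : K →+* ℂ, ∃ R : ℝ, ∀ (k : ℕ) (z : ℂ),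
      (fun z : ℂ => eval z (f.map σ))^[k] (eval z (b.map σ)) =
        (fun z : ℂ => eval z (f.map σ))^[k] (eval z (a.map σ)) → ‖z‖ ≤ R := fun σ =>
    arch (f.map σ) (a.map σ) (b.map σ) (by rwa [natDegree_map]) (by rwa [natDegree_map, natDegree_map])
  choose R hR using harch
  obtain ⟨B, hB⟩ := finite_const R
  have hint : ∀ (m n : ℕ) (x : K), IsIntegral ℤ ((m : K) * x) →
      IsIntegral ℤ (((m * n : ℕ) : K) * x) := by
    intro m n x hx
    have hn : IsIntegral ℤ (n : K) :=
      isIntegral_algebraMap (R := ℤ) (x := (n : ℤ)) |> fun h => by simpa using h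
    have := hn.mul hx
    rw [← mul_assoc] at this
    rwa [Nat.cast_mul, mul_comm (m : K)]
  set N : ℕ := Nf * (Na * Nb) with hNdef
  have hN : 1 ≤ N := by
    have : 0 < Nf * (Na * Nb) := by positivity
    omega
  have hNa' : N = Na * (Nf * Nb) := by rw [hNdef]; ring
  have hNb' : N = Nb * (Nf * Na) := by rw [hNdef]; ring
  refine ⟨N ^ 5, B, one_le_pow₀ hN, ?_⟩
  intro L _ _ _ k t h
  refine ⟨fun w => ?_, fun φ => ?_⟩
  · obtain ⟨hw0, hw1, hcf, hlf⟩ := coeff_le (L := L) f N hN (fun i => hint _ _ _ (hf1 i))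
      (hint _ _ _ hf2) w
    obtain ⟨-, -, hca, -⟩ := coeff_le (L := L) a N hN (fun i => hNa' ▸ hint _ _ _ (ha1 i))
      (hNa' ▸ hint _ _ _ ha2) w
    obtain ⟨-, -, hcb, hlb⟩ := coeff_le (L := L) b N hN (fun i => hNb' ▸ hint _ _ _ (hb1 i))
      (hNb' ▸ hint _ _ _ hb2) w
    have key := nonarch w.val (fun x y => FinitePlace.add_le w x y) (f.map (algebraMap K L))
      (a.map (algebraMap K L)) (b.map (algebraMap K L)) (by rwa [natDegree_map])
      (by rwa [natDegree_map, natDegree_map]) (w (N : L))⁻¹ hw1 hcf (hlf hf0) hca hcb (hlb hb0) k t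
      (by simpa only [eval_map_algebraMap] using h)
    have key' : w t ≤ (w (N : L))⁻¹ ^ 5 := key
    rw [Nat.cast_pow, map_pow]
    calc w (N : L) ^ 5 * w t ≤ w (N : L) ^ 5 * (w (N : L))⁻¹ ^ 5 :=
          mul_le_mul_of_nonneg_left key' (by positivity)
      _ = 1 := by rw [← mul_pow, mul_inv_cancel₀ hw0.ne', one_pow]
  · refine (hR (φ.comp (algebraMap K L)) k (φ t) ?_).trans (hB _)
    have key : ∀ (P : K[X]) (x : L), φ (aeval x P) =
        eval (φ x) (P.map (φ.comp (algebraMap K L))) := fun P x => by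
      rw [aeval_def, hom_eval₂, eval_map]
    have hk : ∀ (k : ℕ) (x : L), φ ((fun z : L => aeval z f)^[k] x) =
        (fun z : ℂ => eval z (f.map (φ.comp (algebraMap K L))))^[k] (φ x) := by
      intro k
      induction k with
      | zero => intro x; rfl
      | succ k ih =>
        intro x
        rw [Function.iterate_succ_apply, Function.iterate_succ_apply, ih, key]
    rw [← key, ← key, ← hk, ← hk, h]

/-- values of a polynomial at bounded points are bounded -/
theorem bd_value (P : K[X]) (N : ℕ) (hN : 1 ≤ N) (R : ℝ) :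
    ∃ (N' : ℕ) (R' : ℝ), 1 ≤ N' ∧
      ∀ (L : Type*) [Field L] [NumberField L] [Algebra K L] (t : L), Bd N R t →
        Bd N' R' (aeval t P) := by
  obtain ⟨NP, hNP, h1, h2⟩ := clear_poly P
  have harch : ∀ σ : K →+* ℂ, ∃ R' : ℝ, ∀ z : ℂ, ‖z‖ ≤ R → ‖eval z (P.map σ)‖ ≤ R' := by
    intro σ
    obtain ⟨A, hA0, hA⟩ := upperC (P.map σ) _ le_rfl
    exact ⟨A * max 1 R ^ (P.map σ).natDegree, fun z hz =>
      hA z _ (le_max_left _ _) (hz.trans (le_max_right _ _))⟩
  choose R' hR' using harch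
  obtain ⟨B, hB⟩ := finite_const R'
  refine ⟨NP * N ^ P.natDegree, B, Nat.one_le_iff_ne_zero.mpr (by positivity), ?_⟩
  intro L _ _ _ t ht
  refine ⟨fun w => ?_, fun φ => ?_⟩
  · obtain ⟨hw0, hw1, hc, -⟩ := coeff_le (L := L) P NP hNP h1 h2 w
    have hN0 : (N : L) ≠ 0 := by
      rw [Nat.cast_ne_zero]
      omega
    have hwN0 : 0 < w (N : L) := FinitePlace.pos_iff.mpr hN0
    have hwN1 : w (N : L) ≤ 1 := by
      refine finitePlace_le_one w _ ?_
      exact isIntegral_algebraMap (R := ℤ) (x := (N : ℤ)) |> fun h => by simpa using h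
    have hwt : w t ≤ (w (N : L))⁻¹ := by
      rw [← one_div, le_div_iff₀' hwN0]
      exact ht.1 w
    have key := upperN w.val (fun x y => FinitePlace.add_le w x y) (P.map (algebraMap K L))
      (w (NP : L))⁻¹ (by positivity) hc P.natDegree (by rw [natDegree_map]) t (w (N : L))⁻¹
      ((one_le_inv₀ hwN0).mpr hwN1) hwt
    rw [eval_map_algebraMap] at key
    have key' : w (aeval t P) ≤ (w (NP : L))⁻¹ * (w (N : L))⁻¹ ^ P.natDegree := key
    rw [Nat.cast_mul, Nat.cast_pow, map_mul, map_pow]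
    calc w (NP : L) * w (N : L) ^ P.natDegree * w (aeval t P)
        ≤ w (NP : L) * w (N : L) ^ P.natDegree *
            ((w (NP : L))⁻¹ * (w (N : L))⁻¹ ^ P.natDegree) :=
          mul_le_mul_of_nonneg_left key' (by positivity)
      _ = (w (NP : L) * (w (NP : L))⁻¹) * (w (N : L) * (w (N : L))⁻¹) ^ P.natDegree := by
          rw [mul_pow]; ring
      _ = 1 := by rw [mul_inv_cancel₀ hw0.ne', mul_inv_cancel₀ hwN0.ne', one_pow, one_mul]
  · have h3 := hR' (φ.comp (algebraMap K L)) (φ t) (ht.2 φ)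
    rw [aeval_def, hom_eval₂, ← eval_map]
    exact h3.trans (hB _)

/-- equal degrees, leading coefficients of different size at the archimedean places -/
theorem bd_of_lead (f a b : K[X]) (hd : 2 ≤ f.natDegree) (hab : a.natDegree = b.natDegree)
    (hb : 1 ≤ b.natDegree) (hl : ∀ σ : K →+* ℂ, ‖σ a.leadingCoeff‖ ≠ ‖σ b.leadingCoeff‖) :
    ∃ (N : ℕ) (R : ℝ), 1 ≤ N ∧
      ∀ (L : Type*) [Field L] [NumberField L] [Algebra K L] (k : ℕ) (t : L),
      (∀ w : FinitePlace L,
        w (algebraMap K L a.leadingCoeff) = w (algebraMap K L b.leadingCoeff) → w t ≤ 1) →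
      (fun z : L => aeval z f)^[k] (aeval t b) = (fun z : L => aeval z f)^[k] (aeval t a) →
      Bd N R t := by
  have hf0 : f ≠ 0 := by
    rintro rfl
    simp at hd
  have hb0 : b ≠ 0 := by
    rintro rfl
    simp at hb
  have ha0 : a ≠ 0 := by
    rintro rfl
    simp at hab
    omega
  obtain ⟨Nf, hNf, hf1, hf2⟩ := clear_poly f
  obtain ⟨Na, hNa, ha1, ha2⟩ := clear_poly a
  obtain ⟨Nb, hNb, hb1, hb2⟩ := clear_poly b
  have harch : ∀ σ : K →+* ℂ, ∃ R : ℝ, ∀ (k : ℕ) (z : ℂ),
      (fun z : ℂ => eval z (f.map σ))^[k] (eval z (b.map σ)) =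
        (fun z : ℂ => eval z (f.map σ))^[k] (eval z (a.map σ)) → ‖z‖ ≤ R := by
    intro σ
    rcases lt_or_gt_of_ne (hl σ) with h | h
    · exact archEq (f.map σ) (a.map σ) (b.map σ) (by rwa [natDegree_map])
        (by rwa [natDegree_map, natDegree_map]) (by rwa [natDegree_map])
        (by rwa [leadingCoeff_map, leadingCoeff_map])
    · obtain ⟨R, hR⟩ := archEq (f.map σ) (b.map σ) (a.map σ) (by rwa [natDegree_map])
        (by rw [natDegree_map, natDegree_map]; exact hab.symm)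
        (by rw [natDegree_map]; omega)
        (by rwa [leadingCoeff_map, leadingCoeff_map])
      exact ⟨R, fun k z h => hR k z h.symm⟩
  choose R hR using harch
  obtain ⟨B, hB⟩ := finite_const R
  have hint : ∀ (m n : ℕ) (x : K), IsIntegral ℤ ((m : K) * x) →
      IsIntegral ℤ (((m * n : ℕ) : K) * x) := by
    intro m n x hx
    have hn : IsIntegral ℤ (n : K) :=
      isIntegral_algebraMap (R := ℤ) (x := (n : ℤ)) |> fun h => by simpa using h
    have := hn.mul hx
    rw [← mul_assoc] at this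
    rwa [Nat.cast_mul, mul_comm (m : K)]
  set N : ℕ := Nf * (Na * Nb) with hNdef
  have hN : 1 ≤ N := by
    have : 0 < Nf * (Na * Nb) := by positivity
    omega
  have hNa' : N = Na * (Nf * Nb) := by rw [hNdef]; ring
  have hNb' : N = Nb * (Nf * Na) := by rw [hNdef]; ring
  refine ⟨N ^ 5, B, one_le_pow₀ hN, ?_⟩
  intro L _ _ _ k t hS h
  refine ⟨fun w => ?_, fun φ => ?_⟩
  · obtain ⟨hw0, hw1, hcf, hlf⟩ := coeff_le (L := L) f N hN (fun i => hint _ _ _ (hf1 i))
      (hint _ _ _ hf2) w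
    obtain ⟨-, -, hca, hla⟩ := coeff_le (L := L) a N hN (fun i => hNa' ▸ hint _ _ _ (ha1 i))
      (hNa' ▸ hint _ _ _ ha2) w
    obtain ⟨-, -, hcb, hlb⟩ := coeff_le (L := L) b N hN (fun i => hNb' ▸ hint _ _ _ (hb1 i))
      (hNb' ▸ hint _ _ _ hb2) w
    have key' : w t ≤ (w (N : L))⁻¹ ^ 5 := by
      by_cases he : w (algebraMap K L a.leadingCoeff) = w (algebraMap K L b.leadingCoeff)
      · exact (hS w he).trans (one_le_pow₀ hw1)
      · rcases lt_or_gt_of_ne he with h' | h'
        · exact nonarchEq w.val (fun x y => FinitePlace.add_le w x y) (f.map (algebraMap K L))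
            (a.map (algebraMap K L)) (b.map (algebraMap K L)) (by rwa [natDegree_map])
            (by rwa [natDegree_map, natDegree_map]) (by rwa [natDegree_map])
            (w (N : L))⁻¹ hw1 hcf (hlf hf0) hca (hla ha0) hcb (hlb hb0)
            (by rw [leadingCoeff_map, leadingCoeff_map]; exact h') k t
            (by simpa only [eval_map_algebraMap] using h)
        · exact nonarchEq w.val (fun x y => FinitePlace.add_le w x y) (f.map (algebraMap K L))
            (b.map (algebraMap K L)) (a.map (algebraMap K L)) (by rwa [natDegree_map])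
            (by rw [natDegree_map, natDegree_map]; exact hab.symm)
            (by rw [natDegree_map]; omega)
            (w (N : L))⁻¹ hw1 hcf (hlf hf0) hcb (hlb hb0) hca (hla ha0)
            (by rw [leadingCoeff_map, leadingCoeff_map]; exact h') k t
            (by simpa only [eval_map_algebraMap] using h.symm)
    rw [Nat.cast_pow, map_pow]
    calc w (N : L) ^ 5 * w t ≤ w (N : L) ^ 5 * (w (N : L))⁻¹ ^ 5 :=
          mul_le_mul_of_nonneg_left key' (by positivity)
      _ = 1 := by rw [← mul_pow, mul_inv_cancel₀ hw0.ne', one_pow]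
  · refine (hR (φ.comp (algebraMap K L)) k (φ t) ?_).trans (hB _)
    have key : ∀ (P : K[X]) (x : L), φ (aeval x P) =
        eval (φ x) (P.map (φ.comp (algebraMap K L))) := fun P x => by
      rw [aeval_def, hom_eval₂, eval_map]
    have hk : ∀ (k : ℕ) (x : L), φ ((fun z : L => aeval z f)^[k] x) =
        (fun z : ℂ => eval z (f.map (φ.comp (algebraMap K L))))^[k] (φ x) := by
      intro k
      induction k with
      | zero => intro x; rfl
      | succ k ih =>
        intro x
        rw [Function.iterate_succ_apply, Function.iterate_succ_apply, ih, key]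
    rw [← key, ← key, ← hk, ← hk, h]

end main

/-- **Main theorem.**  Let `f` be a polynomial of degree at least `2` over a number field `K`, and
`g` a polynomial that commutes with `f`, so that `φ(W) = W` for the hypersurface
`W : x_j = g(x_i)`, `i ≠ j`, of `(ℙ¹)ⁿ`.  Let `C` be the curve `t ↦ (P_1(t), …, P_n(t))` with
`deg P_j = deg g * deg P_i ≥ 1`, and suppose that at every archimedean place of `K` the leading
coefficients of `P_j` and of `g ∘ P_i` have different absolute values.  Then the points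
`C(t) ∈ φ^{-k}(W)`, `k ≥ 0`, with `t` algebraic and integral at the finite places at which these two
leading coefficients have the same absolute value (for instance all algebraic integers `t`) have
bounded height. -/
theorem result {K : Type*} [Field K] [NumberField K] (f g : K[X]) (hd : 2 ≤ f.natDegree)
    (hg : g.comp f = f.comp g) {n : ℕ} (P : Fin n → K[X]) (i j : Fin n)
    (hdeg : (P j).natDegree = g.natDegree * (P i).natDegree) (hj : 1 ≤ (P j).natDegree)
    (hlead : ∀ σ : K →+* ℂ,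
      ‖σ (P j).leadingCoeff‖ ≠ ‖σ (g.leadingCoeff * (P i).leadingCoeff ^ g.natDegree)‖) :
    ∃ B : ℝ, ∀ (L : Type*) [Field L] [NumberField L] [Algebra K L] (k : ℕ) (t : L),
      (∀ w : FinitePlace L, w (algebraMap K L (P j).leadingCoeff) =
        w (algebraMap K L (g.leadingCoeff * (P i).leadingCoeff ^ g.natDegree)) → w t ≤ 1) →
      (fun z : L => aeval z f)^[k] (aeval t (P j)) =
        aeval ((fun z : L => aeval z f)^[k] (aeval t (P i))) g →
      Height.logHeight₁ t ≤ B * Module.finrank ℚ L ∧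
        ∀ l : Fin n, Height.logHeight₁ (aeval t (P l)) ≤ B * Module.finrank ℚ L := by
  have hi0 : (P i).natDegree ≠ 0 := by
    intro h
    rw [h, mul_zero] at hdeg
    omega
  have hlc : (g.comp (P i)).leadingCoeff =
      g.leadingCoeff * (P i).leadingCoeff ^ g.natDegree := leadingCoeff_comp hi0
  rw [← hlc] at hlead
  obtain ⟨N, R, hN, h1⟩ := bd_of_lead f (g.comp (P i)) (P j) hd
    (by rw [natDegree_comp, hdeg]) hj (fun σ h => hlead σ h.symm)
  have hval : ∀ l : Fin n, ∃ (N' : ℕ) (R' : ℝ), 1 ≤ N' ∧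
      ∀ (L : Type _) [Field L] [NumberField L] [Algebra K L] (t : L), Bd N R t →
        Bd N' R' (aeval t (P l)) := fun l => bd_value (P l) N hN R
  choose N' R' hN' hNR' using hval
  obtain ⟨B₂, hB₂⟩ := finite_const fun l : Fin n =>
    Real.log (max 1 (N' l * R' l)) + Real.log (N' l)
  refine ⟨max (Real.log (max 1 (N * R)) + Real.log N) B₂, ?_⟩
  intro L _ _ _ k t hS h
  have hcomm : ∀ (q : ℕ) (z : L),
      aeval ((fun z : L => aeval z f)^[q] z) g =
        (fun z : L => aeval z f)^[q] (aeval z g) := by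
    intro q
    induction q with
    | zero => intro z; rfl
    | succ q ih =>
      intro z
      rw [Function.iterate_succ_apply, Function.iterate_succ_apply, ih]
      congr 1
      have := congrArg (aeval z) hg
      rwa [aeval_comp, aeval_comp] at this
  rw [hcomm, ← aeval_comp] at h
  have hb : Bd N R t := by
    refine h1 L k t (fun w hw => hS w ?_) h
    rw [← hlc]
    exact hw.symm
  have hfr : (0 : ℝ) ≤ Module.finrank ℚ L := Nat.cast_nonneg _
  refine ⟨?_, fun l => ?_⟩
  · exact (height_of_bd N hN R t hb).trans (mul_le_mul_of_nonneg_right (le_max_left _ _) hfr)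
  · refine (height_of_bd _ (hN' l) _ _ (hNR' l L t hb)).trans
      (mul_le_mul_of_nonneg_right ?_ hfr)
    exact (hB₂ l).trans (le_max_right _ _)

end Pool.Agent.Results.MP_ab6cf3_nt.EqualDegrees
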