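import Pool.Agent.Lib.MP_ab6cf3_nt.Real

open Polynomial Filter Pool.Agent.Lib.MP_ab6cf3_nt

namespace Pool.Agent.Results.MP_ab6cf3_nt.IntegralPoints

/-- The coordinatewise action of `f`. -/
def phi {n : ℕ} (f : ℝ[X]) (x : Fin n → ℝ) : Fin n → ℝ := fun i => f.eval (x i)

/-- The curve with the polynomial parametrisation `t ↦ (P 0 (t), …, P (n-1) (t))`. -/
def curve {n : ℕ} (P : Fin n → ℝ[X]) (t : ℝ) : Fin n → ℝ := fun i => (P i).eval t

/-- The hypersurfaces `x_i = ζ` and `x_j = g (x_i)` with `i ≠ j` and `g` a nonconstant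
polynomial. -/
def Shape {n : ℕ} (W : Set (Fin n → ℝ)) : Prop :=
  (∃ (i : Fin n) (ζ : ℝ), W = {x | x i = ζ}) ∨
  ∃ (i j : Fin n) (g : ℝ[X]), i ≠ j ∧ 0 < g.natDegree ∧ W = {x | x j = g.eval (x i)}

lemma phi_iter {n : ℕ} (f : ℝ[X]) (k : ℕ) : ∀ (x : Fin n → ℝ) (i : Fin n),
    (phi f)^[k] x i = (fun y => f.eval y)^[k] (x i) := by
  induction k with
  | zero => intro x i; rfl
  | succ k ih =>
    intro x i
    rw [Function.iterate_succ_apply, Function.iterate_succ_apply, ih]
    rfl

lemma bounded {n : ℕ} (f : ℝ[X]) (hf : 2 ≤ f.natDegree) (P : Fin n → ℝ[X])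
    (hP : ∀ i, 0 < (P i).natDegree) (W : Set (Fin n → ℝ)) (hW : Shape W)
    (hper : ∃ m : ℕ, 0 < m ∧ ∀ x ∈ W, (phi f)^[m] x ∈ W)
    (hC : ∀ k : ℕ, ∃ t : ℝ, (phi f)^[k] (curve P t) ∉ W) :
    Bornology.IsBounded {t : ℝ | ∃ k : ℕ, (phi f)^[k] (curve P t) ∈ W} := by
  rcases hW with ⟨i, ζ, rfl⟩ | ⟨i, j, g, hij, hg, rfl⟩
  · obtain ⟨R0, hR0⟩ := key f hf
    obtain ⟨h1, -⟩ := hR0 (max R0 (|ζ| + 1)) (le_max_left _ _)
    have ht := (P i).tendsto_norm_atTop (natDegree_pos_iff_degree_pos.mp (hP i))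
      (tendsto_norm_cobounded_atTop (E := ℝ))
    rw [Bornology.isBounded_def]
    filter_upwards [ht.eventually_ge_atTop (max R0 (|ζ| + 1))] with t ht
    rintro ⟨k, hk⟩
    simp only [phi_iter] at hk
    have hgrow : ∀ (k : ℕ) (a : ℝ), max R0 (|ζ| + 1) ≤ |a| →
        max R0 (|ζ| + 1) ≤ |(fun y => f.eval y)^[k] a| := by
      intro k
      induction k with
      | zero => intro a ha; exact ha
      | succ k ih => intro a ha; rw [Function.iterate_succ_apply]; exact ih _ (h1 a ha)
    have h3 := hgrow k _ ht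
    have h4 : (fun y => f.eval y)^[k] ((P i).eval t) = ζ := hk
    rw [h4] at h3
    have := le_max_right R0 (|ζ| + 1)
    linarith
  · obtain ⟨m, hm, hper⟩ := hper
    have hcomm : ∀ x : ℝ, (fun y => f.eval y)^[m] (g.eval x) =
        g.eval ((fun y => f.eval y)^[m] x) := by
      intro x
      have hmem : Function.update (fun _ : Fin n => x) j (g.eval x) ∈
          {x : Fin n → ℝ | x j = g.eval (x i)} := by
        simp [Function.update_of_ne hij]
      have := hper _ hmem
      simp only [Set.mem_ofPred_eq, phi_iter, Function.update_self,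
        Function.update_of_ne hij] at this
      exact this
    have hC' : ∀ k : ℕ, ∃ t : ℝ, (fun y => f.eval y)^[k] ((P j).eval t) ≠
        g.eval ((fun y => f.eval y)^[k] ((P i).eval t)) := by
      intro k
      obtain ⟨t, ht⟩ := hC k
      refine ⟨t, fun h => ht ?_⟩
      simp only [Set.mem_ofPred_eq, phi_iter]
      exact h
    have hb := core f g (P i) (P j) hf hg (hP i) (hP j) m hm hcomm hC'
    refine hb.subset ?_
    rintro t ⟨k, hk⟩
    refine ⟨k, ?_⟩
    simp only [Set.mem_ofPred_eq, phi_iter] at hk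
    exact hk

/-- **Polynomial curves, integral parameters.**  Let `f` be a real polynomial of degree at least
two acting coordinatewise, `t ↦ (P_i(t))` a curve with nonconstant polynomial coordinates, and `W`
a hypersurface `x_i = ζ` or `x_j = g(x_i)` that some power of the coordinatewise map sends into
itself, such that the curve lies in none of the iterated preimages of `W`.  Then the set of real
parameters whose point lies in some iterated preimage of `W` is bounded, and it contains only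
finitely many rational numbers of denominator at most `D`, for each `D`. -/
theorem result {n : ℕ} (f : ℝ[X]) (hf : 2 ≤ f.natDegree) (P : Fin n → ℝ[X])
    (hP : ∀ i, 0 < (P i).natDegree) (W : Set (Fin n → ℝ)) (hW : Shape W)
    (hper : ∃ m : ℕ, 0 < m ∧ ∀ x ∈ W, (phi f)^[m] x ∈ W)
    (hC : ∀ k : ℕ, ∃ t : ℝ, (phi f)^[k] (curve P t) ∉ W) :
    Bornology.IsBounded {t : ℝ | ∃ k : ℕ, (phi f)^[k] (curve P t) ∈ W} ∧
    ∀ D : ℕ, {t : ℚ | t.den ≤ D ∧ ∃ k : ℕ, (phi f)^[k] (curve P (t : ℝ)) ∈ W}.Finite := by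
  have hb := bounded f hf P hP W hW hper hC
  exact ⟨hb, fun D => finite_of_bounded _ hb D⟩

end Pool.Agent.Results.MP_ab6cf3_nt.IntegralPoints
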