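import Mathlib

set_option autoImplicit false

open Polynomial NumberField

namespace Pool.Agent.Results.MP_ab6cf3_nt.LinearGrowth

/-! ### finite places and heights (from the hand-in TotallyReal of helper15) -/

/-- `F(U) - F(V) = (U - V) S` with `S` of leading coefficient `deg F` when `F, U, V` are monic and
`U, V` have the same positive degree. -/
lemma exists_quot (F U V : ℤ[X]) (n E : ℕ) (hF : F.Monic) (hD : F.natDegree = n + 1)
    (hU : U.Monic) (hV : V.Monic) (hUE : U.natDegree = E) (hVE : V.natDegree = E) (hE : 0 < E) :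
    ∃ S : ℤ[X], F.comp U - F.comp V = (U - V) * S ∧ S.leadingCoeff = (n + 1 : ℕ) := by
  obtain ⟨S, hS⟩ : ∃ S : ℤ[X], S = ∑ j ∈ Finset.range (n + 1 + 1), C (F.coeff j) *
      ∑ l ∈ Finset.range j, U ^ l * V ^ (j - 1 - l) := ⟨_, rfl⟩
  have hterm : ∀ j l : ℕ, l ∈ Finset.range j →
      (U ^ l * V ^ (j - 1 - l)).Monic ∧ (U ^ l * V ^ (j - 1 - l)).natDegree = (j - 1) * E := by
    intro j l hl
    have hl' := Finset.mem_range.mp hl
    refine ⟨(hU.pow l).mul (hV.pow _), ?_⟩
    rw [(hU.pow l).natDegree_mul (hV.pow _), hU.natDegree_pow, hV.natDegree_pow, hUE, hVE,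
      ← add_mul]
    congr 1
    omega
  have hdeg : S.natDegree ≤ n * E := by
    rw [hS]
    refine natDegree_sum_le_of_forall_le _ _ fun j hj => ?_
    refine (natDegree_C_mul_le _ _).trans (natDegree_sum_le_of_forall_le _ _ fun l hl => ?_)
    rw [(hterm j l hl).2]
    have := Finset.mem_range.mp hj
    exact Nat.mul_le_mul_right E (by omega)
  have hcoeff : S.coeff (n * E) = (n + 1 : ℕ) := by
    rw [hS, finsetSum_coeff, Finset.sum_range_succ]
    have h1 : ∑ j ∈ Finset.range (n + 1), (C (F.coeff j) *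
        ∑ l ∈ Finset.range j, U ^ l * V ^ (j - 1 - l)).coeff (n * E) = 0 := by
      refine Finset.sum_eq_zero fun j hj => ?_
      rw [coeff_C_mul, finsetSum_coeff]
      have h2 : ∑ l ∈ Finset.range j, (U ^ l * V ^ (j - 1 - l)).coeff (n * E) = 0 := by
        refine Finset.sum_eq_zero fun l hl => ?_
        apply coeff_eq_zero_of_natDegree_lt
        rw [(hterm j l hl).2]
        have a1 := Finset.mem_range.mp hj
        have a2 := Finset.mem_range.mp hl
        exact Nat.mul_lt_mul_of_pos_right (by omega) hE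
      rw [h2, mul_zero]
    rw [h1, zero_add, coeff_C_mul, finsetSum_coeff]
    have h3 : ∀ l ∈ Finset.range (n + 1), (U ^ l * V ^ (n + 1 - 1 - l)).coeff (n * E) = 1 := by
      intro l hl
      have h4 := hterm (n + 1) l hl
      have h5 := h4.1.coeff_natDegree
      rw [h4.2] at h5
      exact h5
    rw [Finset.sum_congr rfl h3, Finset.sum_const, Finset.card_range]
    have h6 : F.coeff (n + 1) = 1 := by rw [← hD]; exact hF.coeff_natDegree
    rw [h6]; simp
  refine ⟨S, ?_, ?_⟩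
  · have hF' : ∀ W : ℤ[X], F.comp W = ∑ j ∈ Finset.range (n + 1 + 1), C (F.coeff j) * W ^ j := by
      intro W
      rw [comp, eval₂_eq_sum_range, hD]
    rw [hF', hF', ← Finset.sum_sub_distrib, hS, Finset.mul_sum]
    refine Finset.sum_congr rfl fun j _ => ?_
    rw [← mul_sub, ← (Commute.all U V).geom_sum₂_mul j]
    ring
  · have hne : S.coeff (n * E) ≠ 0 := by rw [hcoeff]; exact_mod_cast (Nat.succ_ne_zero n)
    have hnd : S.natDegree = n * E := le_antisymm hdeg (le_natDegree_of_ne_zero hne)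
    rw [leadingCoeff, hnd, hcoeff]

/-- Algebraic coincidences have denominators dividing the degree. -/
lemma integral {L : Type*} [Field L] (F : ℤ[X]) (n : ℕ) (hF : F.Monic)
    (hD : F.natDegree = n + 1) (t : L) (q : ℕ) :
    ∀ B G : ℤ[X], B.Monic → 0 < B.natDegree → G.Monic → 0 < G.natDegree →
      aeval t B ≠ aeval t G →
      (fun y => aeval y F)^[q] (aeval t B) = (fun y => aeval y F)^[q] (aeval t G) →
      IsIntegral ℤ (((n + 1 : ℕ) : ℤ) • t) := by
  induction q with
  | zero => intro B G _ _ _ _ hne h; exact absurd h hne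
  | succ q ih =>
    intro B G hB hB0 hG hG0 hne h
    rw [Function.iterate_succ_apply, Function.iterate_succ_apply, ← aeval_comp,
      ← aeval_comp] at h
    have hFB : (F.comp B).Monic := hF.comp hB (by omega)
    have hFG : (F.comp G).Monic := hF.comp hG (by omega)
    by_cases he : aeval t (F.comp B) = aeval t (F.comp G)
    · by_cases hdeg : B.natDegree = G.natDegree
      · obtain ⟨S, hS, hlc⟩ := exists_quot F B G n G.natDegree hF hD hB hG hdeg rfl hG0
        have h0 : aeval t S = 0 := by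
          have h1 := congrArg (fun Q : ℤ[X] => aeval t Q) hS
          simp only [map_sub, map_mul] at h1
          rw [he, sub_self] at h1
          rcases mul_eq_zero.mp h1.symm with h2 | h2
          · exact absurd (sub_eq_zero.mp h2) hne
          · exact h2
        have h3 := isIntegral_leadingCoeff_smul S t h0
        rwa [hlc] at h3
      · have ht : IsIntegral ℤ t := by
          rcases lt_or_gt_of_ne hdeg with hlt | hlt
          · refine ⟨F.comp G - F.comp B, hFG.sub_of_left ?_, ?_⟩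
            · apply degree_lt_degree
              rw [natDegree_comp, natDegree_comp, hD]
              exact Nat.mul_lt_mul_of_pos_left hlt (Nat.succ_pos n)
            · have : aeval t (F.comp G - F.comp B) = 0 := by rw [map_sub, he, sub_self]
              exact this
          · refine ⟨F.comp B - F.comp G, hFB.sub_of_left ?_, ?_⟩
            · apply degree_lt_degree
              rw [natDegree_comp, natDegree_comp, hD]
              exact Nat.mul_lt_mul_of_pos_left hlt (Nat.succ_pos n)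
            · have : aeval t (F.comp B - F.comp G) = 0 := by rw [map_sub, he, sub_self]
              exact this
        exact ht.smul _
    · exact ih (F.comp B) (F.comp G) hFB (by rw [natDegree_comp, hD]; positivity) hFG
        (by rw [natDegree_comp, hD]; positivity) he h

/-- Heights of algebraic integers all of whose archimedean absolute values are at most `R`. -/
theorem height {L : Type*} [Field L] [NumberField L] (t : L) (ht : IsIntegral ℤ t) (R : ℝ)
    (hR : 1 ≤ R) (h : ∀ φ : L →+* ℂ, ‖φ t‖ ≤ R) :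
    Height.logHeight₁ t ≤ Real.log R * Module.finrank ℚ L := by
  rw [NumberField.logHeight₁_eq]
  have hfin : (∑ᶠ v : FinitePlace L, Real.posLog (v t)) = 0 := by
    apply finsum_eq_zero_of_forall_eq_zero
    intro v
    apply Real.posLog_eq_zero_iff _ |>.mpr
    rw [abs_of_nonneg (apply_nonneg v t)]
    have := FinitePlace.norm_le_one L v.maximalIdeal (⟨t, ht⟩ : 𝓞 L)
    rw [← FinitePlace.norm_embedding_eq]
    exact this
  rw [hfin, add_zero, ← InfinitePlace.sum_mult_eq, Nat.cast_sum, Finset.mul_sum]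
  refine Finset.sum_le_sum fun v _ => ?_
  rw [mul_comm (Real.log R)]
  refine mul_le_mul_of_nonneg_left ?_ (Nat.cast_nonneg _)
  rw [← Real.posLog_eq_log (by rw [abs_of_nonneg (by linarith)]; exact hR)]
  apply Real.posLog_le_posLog (apply_nonneg v t)
  rw [← InfinitePlace.norm_embedding_eq]
  exact h v.embedding

/-- The height of `t` when `M t` is integral and all archimedean absolute values are at most
`R`. -/
theorem height' {L : Type*} [Field L] [NumberField L] (t : L) (M : ℤ) (hM : M ≠ 0)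
    (ht : IsIntegral ℤ (M • t)) (R : ℝ)
    (hR : 1 ≤ R) (h : ∀ φ : L →+* ℂ, ‖φ t‖ ≤ R) :
    Height.logHeight₁ t ≤ (Real.log (|(M : ℝ)| * R) + Real.log |(M : ℝ)|) * Module.finrank ℚ L := by
  have hM1 : (1 : ℝ) ≤ |(M : ℝ)| := by
    have : 1 ≤ |M| := Int.one_le_abs hM
    exact_mod_cast this
  have hML : (M : L) ≠ 0 := by exact_mod_cast hM
  have h1 := height (M • t) ht (|(M : ℝ)| * R) (by nlinarith) (fun φ => by
    rw [zsmul_eq_mul, map_mul, map_intCast, norm_mul]
    have : ‖((M : ℤ) : ℂ)‖ = |(M : ℝ)| := by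
      rw [Complex.norm_intCast]
    rw [this]
    exact mul_le_mul_of_nonneg_left (h φ) (abs_nonneg _))
  have h2 := height (M : L) isIntegral_algebraMap (|(M : ℝ)|) hM1 (fun φ => by
    rw [map_intCast, Complex.norm_intCast])
  have h3 : t = (M • t) * (M : L)⁻¹ := by
    rw [zsmul_eq_mul]; field_simp
  have h4 := Height.logHeight₁_mul_le (M • t) ((M : L)⁻¹)
  rw [← h3, Height.logHeight₁_inv] at h4
  calc _ ≤ _ := h4
    _ ≤ Real.log (|(M : ℝ)| * R) * Module.finrank ℚ L + Real.log |(M : ℝ)| * Module.finrank ℚ L :=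
      add_le_add h1 h2
    _ = _ := by ring

/-! ### complex estimates -/

/-- an upper bound for a complex polynomial on a disc of radius at least one -/
theorem upperC (P : ℂ[X]) (N : ℕ) (hN : P.natDegree ≤ N) :
    ∃ A : ℝ, 0 ≤ A ∧ ∀ (z : ℂ) (M : ℝ), 1 ≤ M → ‖z‖ ≤ M → ‖eval z P‖ ≤ A * M ^ N := by
  refine ⟨∑ i ∈ Finset.range (P.natDegree + 1), ‖P.coeff i‖,
    Finset.sum_nonneg fun _ _ => norm_nonneg _, ?_⟩
  intro z M hM hz
  rw [eval_eq_sum_range, Finset.sum_mul]
  refine (norm_sum_le _ _).trans (Finset.sum_le_sum fun i hi => ?_)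
  have hi' : i ≤ N := by
    have := Finset.mem_range.mp hi
    omega
  rw [norm_mul, norm_pow]
  refine mul_le_mul_of_nonneg_left ?_ (norm_nonneg _)
  exact (pow_le_pow_left₀ (norm_nonneg _) hz i).trans (pow_le_pow_right₀ hM hi')

/-- a monic polynomial is close to its leading term -/
theorem nearC (f : ℂ[X]) (hf : f.Monic) : ∃ A : ℝ, 0 ≤ A ∧ ∀ (z : ℂ) (M : ℝ), 1 ≤ M → ‖z‖ ≤ M →
    ‖eval z f - z ^ f.natDegree‖ ≤ A * M ^ (f.natDegree - 1) := by
  obtain ⟨A, hA0, hA⟩ := upperC f.eraseLead (f.natDegree - 1) (eraseLead_natDegree_le f)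
  refine ⟨A, hA0, fun z M hM hz => ?_⟩
  have e : eval z f - z ^ f.natDegree = eval z f.eraseLead := by
    have h := congrArg (eval z) (eraseLead_add_C_mul_X_pow f)
    simp only [eval_add, eval_mul, eval_C, eval_pow, eval_X, hf.leadingCoeff, one_mul] at h
    rw [← h]
    ring
  rw [e]
  exact hA z M hM hz

theorem half (f : ℂ[X]) (hf : f.Monic) (hd : 1 ≤ f.natDegree) :
    ∃ R : ℝ, 1 ≤ R ∧ ∀ z : ℂ, R ≤ ‖z‖ → 3 / 4 * ‖z‖ ^ f.natDegree ≤ ‖eval z f‖ := by
  obtain ⟨A, hA0, hA⟩ := nearC f hf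
  refine ⟨1 + 4 * A, by linarith, fun z hz => ?_⟩
  have h1 : 1 ≤ ‖z‖ := by linarith
  have h2 := hA z ‖z‖ h1 le_rfl
  have h5 : ‖z ^ f.natDegree‖ - ‖eval z f - z ^ f.natDegree‖ ≤ ‖eval z f‖ := by
    have := norm_sub_norm_le (z ^ f.natDegree) (z ^ f.natDegree - eval z f)
    rw [sub_sub_cancel, norm_sub_rev (z ^ f.natDegree) (eval z f)] at this
    exact this
  rw [norm_pow] at h5
  obtain ⟨m, hm⟩ : ∃ m, f.natDegree = m + 1 := ⟨f.natDegree - 1, by omega⟩
  rw [hm, Nat.add_sub_cancel] at h2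
  rw [hm] at h5 ⊢
  have h6 : A * ‖z‖ ^ m ≤ 1 / 4 * ‖z‖ ^ (m + 1) := by
    rw [pow_succ]
    have : 0 ≤ ‖z‖ ^ m := by positivity
    nlinarith
  linarith

/-- one step: nearby points far out stay apart and their relative distance grows by a factor of at
most `2 deg f` -/
theorem step (f : ℂ[X]) (hf : f.Monic) (hd : 2 ≤ f.natDegree) :
    ∃ R ε : ℝ, 1 ≤ R ∧ 0 < ε ∧ ∀ u v : ℂ, R ≤ ‖v‖ → u ≠ v → ‖u - v‖ ≤ ε * ‖v‖ →
      eval u f ≠ eval v f ∧ R ≤ ‖eval v f‖ ∧
        ‖eval u f - eval v f‖ * ‖v‖ ≤ 2 * f.natDegree * ‖u - v‖ * ‖eval v f‖ := by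
  set d := f.natDegree with hddef
  obtain ⟨R₁, hR1, hhalf⟩ := half f hf (by omega)
  -- the derivative
  have hder : ∃ A : ℝ, 0 ≤ A ∧ ∀ (z : ℂ) (M : ℝ), 1 ≤ M → ‖z‖ ≤ M →
      ‖eval z (derivative f) - d * z ^ (d - 1)‖ ≤ A * M ^ (d - 2) := by
    obtain ⟨A, hA0, hA⟩ := upperC (derivative f.eraseLead) (d - 2) (by
      refine (natDegree_derivative_le _).trans ?_
      have := eraseLead_natDegree_le f
      omega)
    refine ⟨A, hA0, fun z M hM hz => ?_⟩
    have e : eval z (derivative f) - d * z ^ (d - 1) = eval z (derivative f.eraseLead) := by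
      have h := congrArg (fun P : ℂ[X] => eval z (derivative P)) (eraseLead_add_C_mul_X_pow f)
      simp only [derivative_add, derivative_C_mul, derivative_X_pow, eval_add, eval_mul, eval_C,
        eval_pow, eval_X, hf.leadingCoeff, one_mul, map_natCast, eval_natCast] at h
      rw [← h]
      ring
    rw [e]
    exact hA z M hM hz
  obtain ⟨A, hA0, hA⟩ := hder
  -- continuity of the power at one
  obtain ⟨ε, hε0, hε⟩ : ∃ ε : ℝ, 0 < ε ∧ ∀ x : ℂ, ‖x - 1‖ ≤ ε → ‖x ^ (d - 1) - 1‖ ≤ 1 / 4 := by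
    have hc : ContinuousAt (fun x : ℂ => x ^ (d - 1)) 1 := (continuous_pow (d - 1)).continuousAt
    rw [Metric.continuousAt_iff] at hc
    obtain ⟨δ, hδ, h⟩ := hc (1 / 4) (by norm_num)
    refine ⟨δ / 2, by linarith, fun x hx => ?_⟩
    have := h (x := x) (by rw [dist_eq_norm]; linarith)
    rw [dist_eq_norm, one_pow] at this
    exact this.le
  refine ⟨R₁ + 2 + 4 * A * 2 ^ (d - 2), min ε 1, ?_, by positivity, ?_⟩
  · have : 0 ≤ 4 * A * 2 ^ (d - 2) := by positivity
    linarith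
  intro u v hv huv hle
  have hAp : 0 ≤ 4 * A * 2 ^ (d - 2) := by positivity
  have hv1 : 1 ≤ ‖v‖ := by linarith
  have hv0 : v ≠ 0 := by
    intro h
    rw [h, norm_zero] at hv1
    linarith
  have hfv := hhalf v (by linarith)
  obtain ⟨m, hm⟩ : ∃ m, d = m + 2 := ⟨d - 2, by omega⟩
  have hd1 : d - 1 = m + 1 := by omega
  have hd2 : d - 2 = m := by omega
  rw [hd2] at hv hAp
  have hdm : (d : ℝ) = m + 2 := by rw [hm]; push_cast; ring
  have hd0 : (0 : ℝ) < d := by rw [hdm]; positivity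
  -- the derivative along the segment
  have hseg : ∀ z ∈ segment ℝ v u, ‖eval z (derivative f) - d * v ^ (d - 1)‖ ≤
      d / 2 * ‖v‖ ^ (d - 1) := by
    intro z hz
    have hzv : ‖z - v‖ ≤ ‖u - v‖ := by
      obtain ⟨s, hs, rfl⟩ := (segment_eq_image' ℝ v u) ▸ hz
      rw [add_sub_cancel_left, norm_smul, Real.norm_eq_abs, abs_of_nonneg hs.1]
      exact mul_le_of_le_one_left (norm_nonneg _) hs.2
    have hz1 : ‖z - v‖ ≤ ‖v‖ := by
      refine (hzv.trans hle).trans ?_
      exact mul_le_of_le_one_left (norm_nonneg _) (min_le_right _ _)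
    have hz2 : ‖z‖ ≤ 2 * ‖v‖ := by
      have := norm_add_le (z - v) v
      rw [sub_add_cancel] at this
      linarith
    have h1 := hA z (2 * ‖v‖) (by linarith) hz2
    have h2 : ‖(d : ℂ) * z ^ (d - 1) - d * v ^ (d - 1)‖ ≤ d * (1 / 4 * ‖v‖ ^ (d - 1)) := by
      have h3 := hε (z / v) (by
        rw [div_sub_one hv0, norm_div, div_le_iff₀ (norm_pos_iff.mpr hv0)]
        refine (hzv.trans hle).trans ?_
        exact mul_le_mul_of_nonneg_right (min_le_left _ _) (norm_nonneg _))
      have h4 : (d : ℂ) * z ^ (d - 1) - d * v ^ (d - 1) =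
          d * (((z / v) ^ (d - 1) - 1) * v ^ (d - 1)) := by
        rw [div_pow]
        field_simp
      rw [h4, norm_mul, norm_mul, norm_pow, Complex.norm_natCast]
      exact mul_le_mul_of_nonneg_left (mul_le_mul_of_nonneg_right h3 (by positivity)) hd0.le
    have h5 : A * (2 * ‖v‖) ^ (d - 2) ≤ d * (1 / 4 * ‖v‖ ^ (d - 1)) := by
      rw [hd1, hd2, mul_pow, pow_succ]
      have h6 : 4 * (A * 2 ^ m) ≤ ‖v‖ := by linarith
      have h7 : 0 ≤ ‖v‖ ^ m := by positivity
      have h8 : 4 * (A * (2 ^ m * ‖v‖ ^ m)) ≤ ‖v‖ ^ m * ‖v‖ := by nlinarith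
      have h9 : (1 : ℝ) ≤ d := by rw [hdm]; linarith [(Nat.cast_nonneg m : (0 : ℝ) ≤ m)]
      have h10 : 0 ≤ ‖v‖ ^ m * ‖v‖ := by positivity
      nlinarith
    have h6 := norm_add_le (eval z (derivative f) - d * z ^ (d - 1))
      ((d : ℂ) * z ^ (d - 1) - d * v ^ (d - 1))
    rw [sub_add_sub_cancel] at h6
    linarith
  have hmv : ‖(eval u f - d * v ^ (d - 1) * u) - (eval v f - d * v ^ (d - 1) * v)‖ ≤
      d / 2 * ‖v‖ ^ (d - 1) * ‖u - v‖ := by
    refine Convex.norm_image_sub_le_of_norm_hasDerivWithin_le (𝕜 := ℂ)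
      (f := fun z : ℂ => eval z f - d * v ^ (d - 1) * z)
      (f' := fun z : ℂ => eval z (derivative f) - d * v ^ (d - 1)) (s := segment ℝ v u)
      (fun z _ => ?_) hseg (convex_segment v u) (left_mem_segment ℝ v u) (right_mem_segment ℝ v u)
    have h1 : HasDerivAt (fun z : ℂ => eval z f - d * v ^ (d - 1) * z)
        (eval z (derivative f) - d * v ^ (d - 1) * 1) z :=
      (f.hasDerivAt z).sub ((hasDerivAt_id z).const_mul ((d : ℂ) * v ^ (d - 1)))
    rw [mul_one] at h1
    exact h1.hasDerivWithinAt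
  have hw : 0 < ‖u - v‖ := norm_pos_iff.mpr (sub_ne_zero.mpr huv)
  have hvp : 0 < ‖v‖ ^ (d - 1) := by positivity
  have e1 : (eval u f - d * v ^ (d - 1) * u) - (eval v f - d * v ^ (d - 1) * v) =
      (eval u f - eval v f) - d * v ^ (d - 1) * (u - v) := by ring
  rw [e1] at hmv
  have e2 : ‖(d : ℂ) * v ^ (d - 1) * (u - v)‖ = d * ‖v‖ ^ (d - 1) * ‖u - v‖ := by
    rw [norm_mul, norm_mul, norm_pow, Complex.norm_natCast]
  refine ⟨?_, ?_, ?_⟩
  · intro h
    rw [h, sub_self, zero_sub, norm_neg, e2] at hmv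
    have : 0 < d * ‖v‖ ^ (d - 1) * ‖u - v‖ := by positivity
    nlinarith
  · have h1 : ‖v‖ * ‖v‖ ≤ ‖v‖ ^ d := by
      rw [← sq]
      exact pow_le_pow_right₀ hv1 hd
    rw [hd2]
    have h2 : 2 ≤ ‖v‖ := by linarith
    nlinarith
  · have h1 : ‖eval u f - eval v f‖ ≤ 3 / 2 * (d * ‖v‖ ^ (d - 1) * ‖u - v‖) := by
      have := norm_add_le ((eval u f - eval v f) - d * v ^ (d - 1) * (u - v))
        ((d : ℂ) * v ^ (d - 1) * (u - v))
      rw [sub_add_cancel, e2] at this
      linarith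
    have h2 : ‖v‖ ^ (d - 1) * ‖v‖ = ‖v‖ ^ d := by
      rw [← pow_succ]
      congr 1
      omega
    calc ‖eval u f - eval v f‖ * ‖v‖
        ≤ 3 / 2 * (d * ‖v‖ ^ (d - 1) * ‖u - v‖) * ‖v‖ :=
          mul_le_mul_of_nonneg_right h1 (norm_nonneg _)
      _ = 2 * d * ‖u - v‖ * (3 / 4 * ‖v‖ ^ d) := by rw [← h2]; ring
      _ ≤ 2 * d * ‖u - v‖ * ‖eval v f‖ := mul_le_mul_of_nonneg_left hfv (by positivity)

/-- relative distances below `ε / (2 deg f)^k` are not closed by `f^k` -/
theorem apart (f : ℂ[X]) (hf : f.Monic) (hd : 2 ≤ f.natDegree) :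
    ∃ R ε : ℝ, 1 ≤ R ∧ 0 < ε ∧ ∀ (k : ℕ) (u v : ℂ), R ≤ ‖v‖ → u ≠ v →
      (2 * f.natDegree) ^ k * ‖u - v‖ ≤ ε * ‖v‖ →
      (fun z : ℂ => eval z f)^[k] u ≠ (fun z : ℂ => eval z f)^[k] v := by
  obtain ⟨R, ε, hR, hε, h⟩ := step f hf hd
  refine ⟨R, ε, hR, hε, ?_⟩
  intro k
  induction k with
  | zero => intro u v _ huv _; exact huv
  | succ k ih =>
    intro u v hv huv hle
    rw [Function.iterate_succ_apply, Function.iterate_succ_apply]
    have hd1 : (1 : ℝ) ≤ 2 * f.natDegree := by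
      have : (2 : ℝ) ≤ f.natDegree := by exact_mod_cast hd
      linarith
    have hp : (1 : ℝ) ≤ (2 * f.natDegree) ^ (k + 1) := one_le_pow₀ hd1
    have hv0 : 0 < ‖v‖ := by linarith
    obtain ⟨h1, h2, h3⟩ := h u v hv huv (by
      have : ‖u - v‖ ≤ (2 * f.natDegree) ^ (k + 1) * ‖u - v‖ :=
        le_mul_of_one_le_left (norm_nonneg _) hp
      linarith)
    refine ih (eval u f) (eval v f) h2 h1 ?_
    have h4 : (2 * (f.natDegree : ℝ)) ^ k * ‖eval u f - eval v f‖ * ‖v‖ ≤
        ε * ‖eval v f‖ * ‖v‖ := by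
      calc (2 * (f.natDegree : ℝ)) ^ k * ‖eval u f - eval v f‖ * ‖v‖
          = (2 * (f.natDegree : ℝ)) ^ k * (‖eval u f - eval v f‖ * ‖v‖) := by ring
        _ ≤ (2 * (f.natDegree : ℝ)) ^ k * (2 * f.natDegree * ‖u - v‖ * ‖eval v f‖) :=
            mul_le_mul_of_nonneg_left h3 (by positivity)
        _ = (2 * (f.natDegree : ℝ)) ^ (k + 1) * ‖u - v‖ * ‖eval v f‖ := by ring
        _ ≤ ε * ‖v‖ * ‖eval v f‖ := mul_le_mul_of_nonneg_right hle (norm_nonneg _)
        _ = ε * ‖eval v f‖ * ‖v‖ := by ring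
    exact le_of_mul_le_mul_right h4 hv0

/-- the archimedean bound: solutions have absolute value at most `A (2 deg f)^k` -/
theorem archL (f a b : ℂ[X]) (hf : f.Monic) (hd : 2 ≤ f.natDegree) (ha : a.Monic) (hb : b.Monic)
    (hab : b.natDegree = a.natDegree) (ha0 : 1 ≤ a.natDegree) (hne : b ≠ a) :
    ∃ A : ℝ, 1 ≤ A ∧ ∀ (k : ℕ) (z : ℂ),
      (fun z : ℂ => eval z f)^[k] (eval z b) = (fun z : ℂ => eval z f)^[k] (eval z a) →
      ‖z‖ ≤ A * (2 * f.natDegree) ^ k := by
  obtain ⟨R, ε, hR, hε, h⟩ := apart f hf hd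
  obtain ⟨R₁, hR1, hhalf⟩ := half a ha ha0
  have hdeg : (b - a).natDegree ≤ a.natDegree - 1 := by
    have h1 : (b - a).degree < b.degree :=
      degree_sub_lt_left (by rw [degree_eq_natDegree hb.ne_zero, degree_eq_natDegree ha.ne_zero, hab])
        hb.ne_zero (by rw [hb.leadingCoeff, ha.leadingCoeff])
    have h2 : (b - a).natDegree < b.natDegree :=
      natDegree_lt_natDegree (sub_ne_zero.mpr hne) h1
    omega
  obtain ⟨C, hC0, hC⟩ := upperC (b - a) (a.natDegree - 1) hdeg
  -- the zeros of `b - a`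
  obtain ⟨Z, hZ⟩ : ∃ Z : ℝ, ∀ z : ℂ, eval z (b - a) = 0 → ‖z‖ ≤ Z := by
    have hfin : (((b - a).rootSet ℂ : Set ℂ)).Finite := rootSet_finite (b - a) ℂ
    obtain ⟨Z, hZ⟩ := (hfin.image (fun z => ‖z‖)).bddAbove
    refine ⟨Z, fun z hz => hZ ⟨z, ?_, rfl⟩⟩
    rw [mem_rootSet]
    exact ⟨sub_ne_zero.mpr hne, by simpa using hz⟩
  have hd1 : (1 : ℝ) ≤ 2 * f.natDegree := by
    have : (2 : ℝ) ≤ f.natDegree := by exact_mod_cast hd
    linarith
  refine ⟨R₁ + 2 * R + |Z| + 2 * C / ε, ?_, ?_⟩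
  · have : 0 ≤ 2 * C / ε := by positivity
    have := abs_nonneg Z
    linarith
  intro k z hk
  by_contra hz
  push Not at hz
  have hp : (1 : ℝ) ≤ (2 * f.natDegree) ^ k := one_le_pow₀ hd1
  have t1 : 0 ≤ 2 * C / ε := by positivity
  have t2 := abs_nonneg Z
  have t3 : R₁ + 2 * R + |Z| + 2 * C / ε ≤
      (R₁ + 2 * R + |Z| + 2 * C / ε) * (2 * f.natDegree) ^ k :=
    le_mul_of_one_le_right (by linarith) hp
  have hz1 : 1 ≤ ‖z‖ := by linarith
  have hav := hhalf z (by linarith)
  obtain ⟨m, hm⟩ : ∃ m, a.natDegree = m + 1 := ⟨a.natDegree - 1, by omega⟩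
  have hCz := hC z ‖z‖ hz1 le_rfl
  rw [hm, Nat.add_sub_cancel] at hCz
  rw [hm, pow_succ] at hav
  have hpm : 1 ≤ ‖z‖ ^ m := one_le_pow₀ hz1
  have hzp : ‖z‖ ≤ ‖z‖ ^ m * ‖z‖ := le_mul_of_one_le_left (norm_nonneg _) hpm
  refine h k (eval z b) (eval z a) (by linarith) ?_ ?_ hk
  · intro he
    have := hZ z (by rw [eval_sub, he, sub_self])
    have := le_abs_self Z
    linarith
  · rw [eval_sub] at hCz
    have h1 : 2 * C / ε * (2 * f.natDegree) ^ k ≤ ‖z‖ := by
      have : 2 * C / ε * (2 * f.natDegree) ^ k ≤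
          (R₁ + 2 * R + |Z| + 2 * C / ε) * (2 * f.natDegree) ^ k :=
        mul_le_mul_of_nonneg_right (by linarith) (by positivity)
      linarith
    have h2 : 2 * C * (2 * f.natDegree) ^ k ≤ ε * ‖z‖ := by
      have e : 2 * C / ε * (2 * (f.natDegree : ℝ)) ^ k =
          (2 * C * (2 * f.natDegree) ^ k) / ε := by ring
      rw [e, div_le_iff₀ hε] at h1
      linarith
    have h3 : (2 * (f.natDegree : ℝ)) ^ k * ‖eval z b - eval z a‖ ≤
        (2 * f.natDegree) ^ k * (C * ‖z‖ ^ m) := mul_le_mul_of_nonneg_left hCz (by positivity)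
    have h4 : ε * (3 / 4 * (‖z‖ ^ m * ‖z‖)) ≤ ε * ‖eval z a‖ :=
      mul_le_mul_of_nonneg_left hav hε.le
    have h5 : 2 * C * (2 * f.natDegree) ^ k * ‖z‖ ^ m ≤ ε * ‖z‖ * ‖z‖ ^ m :=
      mul_le_mul_of_nonneg_right h2 (by positivity)
    have h6 : 0 ≤ ε * (‖z‖ ^ m * ‖z‖) := by positivity
    nlinarith

/-- **Main theorem.**  Let `f, g` be monic integer polynomials, `f` of degree at least two and `g`
commuting with `f`, so that `φ(W) = W` for `W : x_j = g(x_i)`.  Let `t ↦ (P_l (t))` be a curve given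
by integer polynomials, `P_i` and `P_j` monic, `deg P_j = deg g * deg P_i ≥ 1`, that does not lie in
`W`.  Then the absolute logarithmic height of the parameter of every algebraic point of the curve in
`φ⁻ᵏ (W)` is at most `c + k log (2 deg f)`: it grows at most linearly in `k`.
(`Height.logHeight₁` on `L` is `[L : ℚ]` times the absolute height.) -/
theorem result {n : ℕ} (f g : ℤ[X]) (P : Fin n → ℤ[X]) (i j : Fin n) (hf : f.Monic)
    (hf2 : 2 ≤ f.natDegree) (hg : g.Monic) (hi : (P i).Monic) (hj : (P j).Monic)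
    (hW : g.comp f = f.comp g) (hdeg : (P j).natDegree = g.natDegree * (P i).natDegree)
    (hj0 : 1 ≤ (P j).natDegree) (hC : P j ≠ g.comp (P i)) :
    ∃ c : ℝ, ∀ (L : Type) [Field L] [NumberField L] (k : ℕ) (t : L),
      (fun y : L => aeval y f)^[k] (aeval t (P j)) =
        aeval ((fun y : L => aeval y f)^[k] (aeval t (P i))) g →
      Height.logHeight₁ t ≤
        (c + k * Real.log (2 * f.natDegree)) * Module.finrank ℚ L := by
  have hinj : Function.Injective (algebraMap ℤ ℂ) := (algebraMap ℤ ℂ).injective_int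
  have hi0 : (P i).natDegree ≠ 0 := by
    intro h
    rw [h, mul_zero] at hdeg
    omega
  set G := g.comp (P i) with hG
  have hGm : G.Monic := hg.comp hi hi0
  have hGd : G.natDegree = (P j).natDegree := by rw [hG, natDegree_comp, hdeg]
  obtain ⟨A, hA1, hA⟩ := archL (f.map (algebraMap ℤ ℂ)) (G.map (algebraMap ℤ ℂ))
    ((P j).map (algebraMap ℤ ℂ)) (hf.map _) (by rwa [natDegree_map_eq_of_injective hinj])
    (hGm.map _) (hj.map _)
    (by rw [natDegree_map_eq_of_injective hinj, natDegree_map_eq_of_injective hinj, hGd])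
    (by rw [natDegree_map_eq_of_injective hinj, hGd]; exact hj0)
    (fun h => hC (map_injective _ hinj h))
  obtain ⟨d, hd⟩ : ∃ d, f.natDegree = d + 1 := ⟨f.natDegree - 1, by omega⟩
  set M : ℤ := ((d + 1 : ℕ) : ℤ) * (P j - G).leadingCoeff with hM
  have hM0 : M ≠ 0 := mul_ne_zero (by exact_mod_cast Nat.succ_ne_zero d)
    (leadingCoeff_ne_zero.mpr (sub_ne_zero.mpr hC))
  have hM1 : (1 : ℝ) ≤ |(M : ℝ)| := by
    have : 1 ≤ |M| := Int.one_le_abs hM0
    exact_mod_cast this
  refine ⟨Real.log |(M : ℝ)| + Real.log A + Real.log |(M : ℝ)|, ?_⟩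
  intro L _ _ k t h
  have hcomm : ∀ (q : ℕ) (z : L),
      aeval ((fun z : L => aeval z f)^[q] z) g =
        (fun z : L => aeval z f)^[q] (aeval z g) := by
    intro q
    induction q with
    | zero => intro z; rfl
    | succ q ih =>
      intro z
      rw [Function.iterate_succ_apply, Function.iterate_succ_apply, ih]
      congr 1
      have := congrArg (aeval z) hW
      rwa [aeval_comp, aeval_comp] at this
  rw [hcomm, ← aeval_comp, ← hG] at h
  have hint : IsIntegral ℤ (M • t) := by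
    by_cases hr : aeval t (P j - G) = 0
    · have h1 := isIntegral_leadingCoeff_smul _ t hr
      rw [hM, mul_smul]
      exact h1.smul _
    · have h1 := integral f d hf hd t k (P j) G hj (by omega) hGm (by omega)
        (fun he => hr (by rw [map_sub, he, sub_self])) h
      rw [hM, mul_comm, mul_smul]
      exact h1.smul _
  have hd1 : (1 : ℝ) ≤ 2 * f.natDegree := by
    have : (2 : ℝ) ≤ f.natDegree := by exact_mod_cast hf2
    linarith
  have hp : (1 : ℝ) ≤ (2 * f.natDegree) ^ k := one_le_pow₀ hd1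
  have key : ∀ (φ : L →+* ℂ) (Q : ℤ[X]) (x : L), φ (aeval x Q) =
      eval (φ x) (Q.map (algebraMap ℤ ℂ)) := fun φ Q x => by
    rw [aeval_def, hom_eval₂, eval_map]
    congr 1
    exact RingHom.ext_int _ _
  have hk : ∀ (φ : L →+* ℂ) (k : ℕ) (x : L), φ ((fun z : L => aeval z f)^[k] x) =
      (fun z : ℂ => eval z (f.map (algebraMap ℤ ℂ)))^[k] (φ x) := by
    intro φ k
    induction k with
    | zero => intro x; rfl
    | succ k ih =>
      intro x
      rw [Function.iterate_succ_apply, Function.iterate_succ_apply, ih, key]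
  have hmain := height' t M hM0 hint (A * (2 * f.natDegree) ^ k) (by nlinarith) (fun φ => by
    have h2 := hA k (φ t) (by rw [← key, ← key, ← hk, ← hk, h])
    rwa [natDegree_map_eq_of_injective hinj] at h2)
  have hlog : Real.log (|(M : ℝ)| * (A * (2 * f.natDegree) ^ k)) =
      Real.log |(M : ℝ)| + Real.log A + k * Real.log (2 * f.natDegree) := by
    rw [Real.log_mul (by positivity) (by positivity), Real.log_mul (by positivity) (by positivity),
      Real.log_pow]
    ring
  rw [hlog] at hmain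
  refine hmain.trans (le_of_eq ?_)
  ring

end Pool.Agent.Results.MP_ab6cf3_nt.LinearGrowth
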