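import Pool.Agent.Lib.MP_ab6cf3_nt.Real

open Polynomial NumberField Pool.Agent.Lib.MP_ab6cf3_nt

namespace Pool.Agent.Results.MP_ab6cf3_nt.TotallyReal

lemma aev {L : Type*} [CommRing L] (f Q : ℤ[X]) (k : ℕ) (t : L) :
    aeval t (f.comp^[k] Q) = (fun y => aeval y f)^[k] (aeval t Q) := by
  induction k with
  | zero => rfl
  | succ k ih =>
    rw [Function.iterate_succ_apply', Function.iterate_succ_apply', aeval_comp, ih]

lemma monic_iter (f Q : ℤ[X]) (hf : f.Monic) (hf0 : 0 < f.natDegree) (hQ : Q.Monic)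
    (hQ0 : 0 < Q.natDegree) (k : ℕ) :
    (f.comp^[k] Q).Monic ∧ 0 < (f.comp^[k] Q).natDegree := by
  induction k with
  | zero => exact ⟨hQ, hQ0⟩
  | succ k ih =>
    rw [Function.iterate_succ_apply']
    refine ⟨hf.comp ih.1 (by omega), ?_⟩
    rw [natDegree_comp]
    exact Nat.mul_pos hf0 ih.2

/-- `F(U) - F(V) = (U - V) S` with `S` of leading coefficient `deg F` when `F, U, V` are monic and
`U, V` have the same positive degree. -/
lemma exists_quot (F U V : ℤ[X]) (n E : ℕ) (hF : F.Monic) (hD : F.natDegree = n + 1)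
    (hU : U.Monic) (hV : V.Monic) (hUE : U.natDegree = E) (hVE : V.natDegree = E) (hE : 0 < E) :
    ∃ S : ℤ[X], F.comp U - F.comp V = (U - V) * S ∧ S.leadingCoeff = (n + 1 : ℕ) := by
  obtain ⟨S, hS⟩ : ∃ S : ℤ[X], S = ∑ j ∈ Finset.range (n + 1 + 1), C (F.coeff j) *
      ∑ l ∈ Finset.range j, U ^ l * V ^ (j - 1 - l) := ⟨_, rfl⟩
  have hterm : ∀ j l : ℕ, l ∈ Finset.range j →
      (U ^ l * V ^ (j - 1 - l)).Monic ∧ (U ^ l * V ^ (j - 1 - l)).natDegree = (j - 1) * E := by
    intro j l hl
    have hl' := Finset.mem_range.mp hl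
    refine ⟨(hU.pow l).mul (hV.pow _), ?_⟩
    rw [(hU.pow l).natDegree_mul (hV.pow _), hU.natDegree_pow, hV.natDegree_pow, hUE, hVE,
      ← add_mul]
    congr 1
    omega
  have hdeg : S.natDegree ≤ n * E := by
    rw [hS]
    refine natDegree_sum_le_of_forall_le _ _ fun j hj => ?_
    refine (natDegree_C_mul_le _ _).trans (natDegree_sum_le_of_forall_le _ _ fun l hl => ?_)
    rw [(hterm j l hl).2]
    have := Finset.mem_range.mp hj
    exact Nat.mul_le_mul_right E (by omega)
  have hcoeff : S.coeff (n * E) = (n + 1 : ℕ) := by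
    rw [hS, finsetSum_coeff, Finset.sum_range_succ]
    have h1 : ∑ j ∈ Finset.range (n + 1), (C (F.coeff j) *
        ∑ l ∈ Finset.range j, U ^ l * V ^ (j - 1 - l)).coeff (n * E) = 0 := by
      refine Finset.sum_eq_zero fun j hj => ?_
      rw [coeff_C_mul, finsetSum_coeff]
      have h2 : ∑ l ∈ Finset.range j, (U ^ l * V ^ (j - 1 - l)).coeff (n * E) = 0 := by
        refine Finset.sum_eq_zero fun l hl => ?_
        apply coeff_eq_zero_of_natDegree_lt
        rw [(hterm j l hl).2]
        have a1 := Finset.mem_range.mp hj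
        have a2 := Finset.mem_range.mp hl
        exact Nat.mul_lt_mul_of_pos_right (by omega) hE
      rw [h2, mul_zero]
    rw [h1, zero_add, coeff_C_mul, finsetSum_coeff]
    have h3 : ∀ l ∈ Finset.range (n + 1), (U ^ l * V ^ (n + 1 - 1 - l)).coeff (n * E) = 1 := by
      intro l hl
      have h4 := hterm (n + 1) l hl
      have h5 := h4.1.coeff_natDegree
      rw [h4.2] at h5
      exact h5
    rw [Finset.sum_congr rfl h3, Finset.sum_const, Finset.card_range]
    have h6 : F.coeff (n + 1) = 1 := by rw [← hD]; exact hF.coeff_natDegree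
    rw [h6]; simp
  refine ⟨S, ?_, ?_⟩
  · have hF' : ∀ W : ℤ[X], F.comp W = ∑ j ∈ Finset.range (n + 1 + 1), C (F.coeff j) * W ^ j := by
      intro W
      rw [comp, eval₂_eq_sum_range, hD]
    rw [hF', hF', ← Finset.sum_sub_distrib, hS, Finset.mul_sum]
    refine Finset.sum_congr rfl fun j _ => ?_
    rw [← mul_sub, ← (Commute.all U V).geom_sum₂_mul j]
    ring
  · have hne : S.coeff (n * E) ≠ 0 := by rw [hcoeff]; exact_mod_cast (Nat.succ_ne_zero n)
    have hnd : S.natDegree = n * E := le_antisymm hdeg (le_natDegree_of_ne_zero hne)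
    rw [leadingCoeff, hnd, hcoeff]

/-- Algebraic coincidences have denominators dividing the degree. -/
lemma integral {L : Type*} [Field L] (F : ℤ[X]) (n : ℕ) (hF : F.Monic)
    (hD : F.natDegree = n + 1) (t : L) (q : ℕ) :
    ∀ B G : ℤ[X], B.Monic → 0 < B.natDegree → G.Monic → 0 < G.natDegree →
      aeval t B ≠ aeval t G →
      (fun y => aeval y F)^[q] (aeval t B) = (fun y => aeval y F)^[q] (aeval t G) →
      IsIntegral ℤ (((n + 1 : ℕ) : ℤ) • t) := by
  induction q with
  | zero => intro B G _ _ _ _ hne h; exact absurd h hne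
  | succ q ih =>
    intro B G hB hB0 hG hG0 hne h
    rw [Function.iterate_succ_apply, Function.iterate_succ_apply, ← aeval_comp,
      ← aeval_comp] at h
    have hFB : (F.comp B).Monic := hF.comp hB (by omega)
    have hFG : (F.comp G).Monic := hF.comp hG (by omega)
    by_cases he : aeval t (F.comp B) = aeval t (F.comp G)
    · by_cases hdeg : B.natDegree = G.natDegree
      · obtain ⟨S, hS, hlc⟩ := exists_quot F B G n G.natDegree hF hD hB hG hdeg rfl hG0
        have h0 : aeval t S = 0 := by
          have h1 := congrArg (fun Q : ℤ[X] => aeval t Q) hS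
          simp only [map_sub, map_mul] at h1
          rw [he, sub_self] at h1
          rcases mul_eq_zero.mp h1.symm with h2 | h2
          · exact absurd (sub_eq_zero.mp h2) hne
          · exact h2
        have h3 := isIntegral_leadingCoeff_smul S t h0
        rwa [hlc] at h3
      · have ht : IsIntegral ℤ t := by
          rcases lt_or_gt_of_ne hdeg with hlt | hlt
          · refine ⟨F.comp G - F.comp B, hFG.sub_of_left ?_, ?_⟩
            · apply degree_lt_degree
              rw [natDegree_comp, natDegree_comp, hD]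
              exact Nat.mul_lt_mul_of_pos_left hlt (Nat.succ_pos n)
            · have : aeval t (F.comp G - F.comp B) = 0 := by rw [map_sub, he, sub_self]
              exact this
          · refine ⟨F.comp B - F.comp G, hFB.sub_of_left ?_, ?_⟩
            · apply degree_lt_degree
              rw [natDegree_comp, natDegree_comp, hD]
              exact Nat.mul_lt_mul_of_pos_left hlt (Nat.succ_pos n)
            · have : aeval t (F.comp B - F.comp G) = 0 := by rw [map_sub, he, sub_self]
              exact this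
        exact ht.smul _
    · exact ih (F.comp B) (F.comp G) hFB (by rw [natDegree_comp, hD]; positivity) hFG
        (by rw [natDegree_comp, hD]; positivity) he h

/-- Heights of algebraic integers all of whose archimedean absolute values are at most `R`. -/
theorem height {L : Type*} [Field L] [NumberField L] (t : L) (ht : IsIntegral ℤ t) (R : ℝ)
    (hR : 1 ≤ R) (h : ∀ φ : L →+* ℂ, ‖φ t‖ ≤ R) :
    Height.logHeight₁ t ≤ Real.log R * Module.finrank ℚ L := by
  rw [NumberField.logHeight₁_eq]
  have hfin : (∑ᶠ v : FinitePlace L, Real.posLog (v t)) = 0 := by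
    apply finsum_eq_zero_of_forall_eq_zero
    intro v
    apply Real.posLog_eq_zero_iff _ |>.mpr
    rw [abs_of_nonneg (apply_nonneg v t)]
    have := FinitePlace.norm_le_one L v.maximalIdeal (⟨t, ht⟩ : 𝓞 L)
    rw [← FinitePlace.norm_embedding_eq]
    exact this
  rw [hfin, add_zero, ← InfinitePlace.sum_mult_eq, Nat.cast_sum, Finset.mul_sum]
  refine Finset.sum_le_sum fun v _ => ?_
  rw [mul_comm (Real.log R)]
  refine mul_le_mul_of_nonneg_left ?_ (Nat.cast_nonneg _)
  rw [← Real.posLog_eq_log (by rw [abs_of_nonneg (by linarith)]; exact hR)]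
  apply Real.posLog_le_posLog (apply_nonneg v t)
  rw [← InfinitePlace.norm_embedding_eq]
  exact h v.embedding

/-- The height of `t` when `M t` is integral and all archimedean absolute values are at most
`R`. -/
theorem height' {L : Type*} [Field L] [NumberField L] (t : L) (M : ℤ) (hM : M ≠ 0)
    (ht : IsIntegral ℤ (M • t)) (R : ℝ)
    (hR : 1 ≤ R) (h : ∀ φ : L →+* ℂ, ‖φ t‖ ≤ R) :
    Height.logHeight₁ t ≤ (Real.log (|(M : ℝ)| * R) + Real.log |(M : ℝ)|) * Module.finrank ℚ L := by
  have hM1 : (1 : ℝ) ≤ |(M : ℝ)| := by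
    have : 1 ≤ |M| := Int.one_le_abs hM
    exact_mod_cast this
  have hML : (M : L) ≠ 0 := by exact_mod_cast hM
  have h1 := height (M • t) ht (|(M : ℝ)| * R) (by nlinarith) (fun φ => by
    rw [zsmul_eq_mul, map_mul, map_intCast, norm_mul]
    have : ‖((M : ℤ) : ℂ)‖ = |(M : ℝ)| := by
      rw [Complex.norm_intCast]
    rw [this]
    exact mul_le_mul_of_nonneg_left (h φ) (abs_nonneg _))
  have h2 := height (M : L) isIntegral_algebraMap (|(M : ℝ)|) hM1 (fun φ => by
    rw [map_intCast, Complex.norm_intCast])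
  have h3 : t = (M • t) * (M : L)⁻¹ := by
    rw [zsmul_eq_mul]; field_simp
  have h4 := Height.logHeight₁_mul_le (M • t) ((M : L)⁻¹)
  rw [← h3, Height.logHeight₁_inv] at h4
  calc _ ≤ _ := h4
    _ ≤ Real.log (|(M : ℝ)| * R) * Module.finrank ℚ L + Real.log |(M : ℝ)| * Module.finrank ℚ L :=
      add_le_add h1 h2
    _ = _ := by ring

/-- The height of a polynomial value when `M t` is integral and all archimedean absolute values of
`t` are at most `R`. -/
theorem poly_height (Q : ℤ[X]) (M : ℤ) (hM : M ≠ 0) (R : ℝ) (hR : 1 ≤ R) :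
    ∃ c : ℝ, ∀ (L : Type) [Field L] [NumberField L] (t : L), IsIntegral ℤ (M • t) →
      (∀ φ : L →+* ℂ, ‖φ t‖ ≤ R) →
      Height.logHeight₁ (aeval t Q) ≤ c * Module.finrank ℚ L := by
  refine ⟨Real.log (|((M ^ Q.natDegree : ℤ) : ℝ)| *
    (1 + ∑ i ∈ Finset.range (Q.natDegree + 1), |(Q.coeff i : ℝ)| * R ^ i)) +
    Real.log |((M ^ Q.natDegree : ℤ) : ℝ)|, ?_⟩
  intro L _ _ t ht h
  have hsum : (0 : ℝ) ≤ ∑ i ∈ Finset.range (Q.natDegree + 1), |(Q.coeff i : ℝ)| * R ^ i :=
    Finset.sum_nonneg fun i _ => by positivity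
  refine height' (aeval t Q) (M ^ Q.natDegree) (pow_ne_zero _ hM) ?_ _ (by linarith) ?_
  · have e : M ^ Q.natDegree • aeval t Q = ∑ i ∈ Finset.range (Q.natDegree + 1),
        (Q.coeff i * M ^ (Q.natDegree - i)) • (M • t) ^ i := by
      rw [aeval_eq_sum_range, Finset.smul_sum]
      refine Finset.sum_congr rfl fun i hi => ?_
      have hi' : i ≤ Q.natDegree := by
        have := Finset.mem_range.mp hi
        omega
      have hp : M ^ Q.natDegree = M ^ (Q.natDegree - i) * M ^ i := (pow_sub_mul_pow M hi').symm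
      simp only [zsmul_eq_mul, mul_pow]
      rw [hp]
      push_cast
      ring
    rw [e]
    exact IsIntegral.sum _ fun i _ => (ht.pow i).smul _
  · intro φ
    rw [aeval_eq_sum_range, map_sum]
    refine (norm_sum_le _ _).trans ?_
    refine (Finset.sum_le_sum fun i _ => ?_).trans (le_add_of_nonneg_left zero_le_one)
    rw [zsmul_eq_mul, map_mul, map_pow, map_intCast, norm_mul, norm_pow, Complex.norm_intCast]
    exact mul_le_mul_of_nonneg_left (pow_le_pow_left₀ (norm_nonneg _) (h φ) i) (abs_nonneg _)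

/-- Common denominator and archimedean bound. -/
theorem bounds (f g A B : ℤ[X]) (hf : f.Monic) (hf2 : 2 ≤ f.natDegree)
    (hg : g.Monic) (hg0 : 0 < g.natDegree) (hA : A.Monic) (hA0 : 0 < A.natDegree)
    (hB : B.Monic) (hB0 : 0 < B.natDegree) (m : ℕ) (hm : 0 < m)
    (hW : g.comp (f.comp^[m] X) = (f.comp^[m] X).comp g)
    (hC : ∀ k : ℕ, f.comp^[k] B ≠ g.comp (f.comp^[k] A)) :
    ∃ (M : ℤ) (R : ℝ), M ≠ 0 ∧ 1 ≤ R ∧
      ∀ (L : Type) [Field L] [NumberField L] [IsTotallyReal L] (k : ℕ) (t : L),
      (fun y => aeval y f)^[k] (aeval t B) = aeval ((fun y => aeval y f)^[k] (aeval t A)) g →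
      IsIntegral ℤ (M • t) ∧ ∀ φ : L →+* ℂ, ‖φ t‖ ≤ R := by
  have hinj : Function.Injective (algebraMap ℤ ℝ) := (algebraMap ℤ ℝ).injective_int
  have hfun : (fun y : ℝ => (f.map (algebraMap ℤ ℝ)).eval y) = fun y : ℝ => aeval y f := by
    funext y; exact eval_map_algebraMap f y
  -- the real part
  have hb : Bornology.IsBounded {t : ℝ | ∃ k : ℕ, (fun y => aeval y f)^[k] (aeval t B) =
      aeval ((fun y => aeval y f)^[k] (aeval t A)) g} := by
    have h := core (f.map (algebraMap ℤ ℝ)) (g.map (algebraMap ℤ ℝ)) (A.map (algebraMap ℤ ℝ))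
      (B.map (algebraMap ℤ ℝ)) (by rwa [natDegree_map_eq_of_injective hinj])
      (by rwa [natDegree_map_eq_of_injective hinj]) (by rwa [natDegree_map_eq_of_injective hinj])
      (by rwa [natDegree_map_eq_of_injective hinj]) m hm ?_ ?_
    · rw [hfun] at h
      simp only [eval_map_algebraMap] at h
      exact h
    · intro x
      rw [hfun]
      simp only [eval_map_algebraMap]
      have h2 := congrArg (fun Q : ℤ[X] => aeval x Q) hW
      simp only [aeval_comp, aev, aeval_X] at h2
      exact h2.symm
    · intro k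
      rw [hfun]
      simp only [eval_map_algebraMap]
      by_contra hcon
      push Not at hcon
      apply hC k
      have h3 : (f.comp^[k] B).map (algebraMap ℤ ℝ) =
          (g.comp (f.comp^[k] A)).map (algebraMap ℤ ℝ) := by
        apply Polynomial.funext
        intro t
        rw [eval_map_algebraMap, eval_map_algebraMap, aeval_comp, aev, aev]
        exact hcon t
      exact map_injective _ hinj h3
  obtain ⟨R, hR⟩ := hb.subset_closedBall 0
  obtain ⟨n, hn⟩ : ∃ n, (f.comp^[m] X : ℤ[X]).natDegree = n + 1 := by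
    have : 0 < (f.comp^[m] X : ℤ[X]).natDegree :=
      (monic_iter f X hf (by omega) monic_X (by simp) m).2
    exact ⟨_, (Nat.succ_pred_eq_of_pos this).symm⟩
  -- the common denominator
  obtain ⟨M, hMdef⟩ : ∃ M : ℤ, M = ((n + 1 : ℕ) : ℤ) *
      ∏ r ∈ Finset.range m, (f.comp^[r] B - g.comp (f.comp^[r] A)).leadingCoeff := ⟨_, rfl⟩
  have hM0 : M ≠ 0 := by
    rw [hMdef]
    refine mul_ne_zero (by exact_mod_cast Nat.succ_ne_zero n) ?_
    refine Finset.prod_ne_zero_iff.mpr fun r _ => ?_
    exact leadingCoeff_ne_zero.mpr (sub_ne_zero.mpr (hC r))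
  refine ⟨M, max 1 R, hM0, le_max_left _ _, ?_⟩
  intro L _ _ _ k t hk
  refine ⟨?_, ?_⟩
  · -- integrality
    by_cases hr : aeval t (f.comp^[k % m] B - g.comp (f.comp^[k % m] A)) = 0
    · have h1 := isIntegral_leadingCoeff_smul _ t hr
      obtain ⟨M', hM'⟩ : ∃ M' : ℤ, M = M' *
          (f.comp^[k % m] B - g.comp (f.comp^[k % m] A)).leadingCoeff := by
        have h2 := Finset.dvd_prod_of_mem
          (fun r => (f.comp^[r] B - g.comp (f.comp^[r] A)).leadingCoeff)
          (Finset.mem_range.mpr (Nat.mod_lt k hm))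
        obtain ⟨z, hz⟩ := h2
        refine ⟨((n + 1 : ℕ) : ℤ) * z, ?_⟩
        rw [hMdef, hz]; ring
      rw [hM', mul_smul]
      exact h1.smul _
    · have hFm := monic_iter f X hf (by omega) monic_X (by simp) m
      have hBr := monic_iter f B hf (by omega) hB hB0 (k % m)
      have hAr := monic_iter f A hf (by omega) hA hA0 (k % m)
      have hGr : (g.comp (f.comp^[k % m] A)).Monic ∧
          0 < (g.comp (f.comp^[k % m] A)).natDegree := by
        refine ⟨hg.comp hAr.1 (by omega), ?_⟩
        rw [natDegree_comp]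
        exact Nat.mul_pos hg0 hAr.2
      have hFq : (fun y : L => aeval y (f.comp^[m] X : ℤ[X])) = (fun y : L => aeval y f)^[m] := by
        funext y
        rw [aev, aeval_X]
      have hsemi : Function.Semiconj (fun x : L => aeval x g) ((fun y : L => aeval y f)^[m])
          ((fun y : L => aeval y f)^[m]) := by
        intro x
        have h2 := congrArg (fun Q : ℤ[X] => aeval x Q) hW
        simp only [aeval_comp, aev, aeval_X] at h2
        exact h2
      have hint := integral (f.comp^[m] X) n hFm.1 hn t (k / m) (f.comp^[k % m] B)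
        (g.comp (f.comp^[k % m] A)) hBr.1 hBr.2 hGr.1 hGr.2 (by
          intro h
          apply hr
          rw [map_sub, h, sub_self]) (by
          rw [hFq, aeval_comp, aev, aev]
          have hsq := (hsemi.iterate_right (k / m)) ((fun y : L => aeval y f)^[k % m] (aeval t A))
          have hkk : k = m * (k / m) + k % m := (Nat.div_add_mod k m).symm
          rw [hkk, Function.iterate_add_apply, Function.iterate_add_apply,
            Function.iterate_mul] at hk
          exact hk.trans hsq)
      rw [hMdef, mul_comm, mul_smul]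
      exact hint.smul _
  · -- the archimedean places
    intro φ
    have hφ := IsTotallyReal.complexEmbedding_isReal φ
    have e1 : ‖φ t‖ = |hφ.embedding t| := by
      rw [← hφ.coe_embedding_apply t, Complex.norm_real, Real.norm_eq_abs]
    have key : ∀ (P : ℤ[X]) (x : L), hφ.embedding (aeval x P) = aeval (hφ.embedding x) P :=
      fun P x => by
        rw [aeval_def, aeval_def, hom_eval₂]
        congr 1
        exact RingHom.ext_int _ _
    have hk' : aeval t (f.comp^[k] B) = aeval t (g.comp (f.comp^[k] A)) := by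
      rw [aeval_comp, aev, aev]; exact hk
    have h5 : aeval (hφ.embedding t) (f.comp^[k] B) =
        aeval (hφ.embedding t) (g.comp (f.comp^[k] A)) := by
      rw [← key, ← key, hk']
    rw [aeval_comp, aev, aev] at h5
    have h6 : hφ.embedding t ∈ {t : ℝ | ∃ k : ℕ, (fun y => aeval y f)^[k] (aeval t B) =
      aeval ((fun y => aeval y f)^[k] (aeval t A)) g} := ⟨k, h5⟩
    have h7 := hR h6
    rw [mem_closedBall_zero_iff, Real.norm_eq_abs] at h7
    rw [e1]
    exact h7.trans (le_max_right _ _)

/-- **Bounded height of the totally real points.**  Let `f, g` be monic integer polynomials, `f` of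
degree at least two and `g` nonconstant and commuting with the `m`-th iterate of `f`, so that
`W : x_j = g (x_i)` is a periodic hypersurface of the coordinatewise action `φ` of `f`.  Let
`t ↦ (P_l (t))` be a curve given by integer polynomials, `P_i` and `P_j` monic and nonconstant, that
lies in no `φ⁻ᵏ (W)`.  Then one constant bounds the absolute logarithmic height of `t` and of the
point `(P_l (t))` for all totally real number fields `L`, all `t` in `L` and all `k` such that the
point lies in `φ⁻ᵏ (W)`.  (`Height.logHeight₁` on `L` is `[L : ℚ]` times the absolute height.) -/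
theorem result {n : ℕ} (f g : ℤ[X]) (P : Fin n → ℤ[X]) (i j : Fin n) (hf : f.Monic)
    (hf2 : 2 ≤ f.natDegree) (hg : g.Monic) (hg0 : 0 < g.natDegree)
    (hi : (P i).Monic) (hi0 : 0 < (P i).natDegree) (hj : (P j).Monic) (hj0 : 0 < (P j).natDegree)
    (m : ℕ) (hm : 0 < m) (hW : g.comp (f.comp^[m] X) = (f.comp^[m] X).comp g)
    (hC : ∀ k : ℕ, f.comp^[k] (P j) ≠ g.comp (f.comp^[k] (P i))) :
    ∃ c : ℝ, ∀ (L : Type) [Field L] [NumberField L] [IsTotallyReal L] (k : ℕ) (t : L),
      (fun y => aeval y f)^[k] (aeval t (P j)) =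
        aeval ((fun y => aeval y f)^[k] (aeval t (P i))) g →
      Height.logHeight₁ t + ∑ l, Height.logHeight₁ (aeval t (P l)) ≤
        c * Module.finrank ℚ L := by
  obtain ⟨M, R, hM, hR, h⟩ := bounds f g (P i) (P j) hf hf2 hg hg0 hi hi0 hj hj0 m hm hW hC
  obtain ⟨c0, hc0⟩ := poly_height X M hM R hR
  choose c hc using fun l => poly_height (P l) M hM R hR
  refine ⟨c0 + ∑ l, c l, ?_⟩
  intro L _ _ _ k t hk
  obtain ⟨h1, h2⟩ := h L k t hk
  rw [add_mul, Finset.sum_mul]
  refine add_le_add ?_ (Finset.sum_le_sum fun l _ => hc l L t h1 h2)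
  have := hc0 L t h1 h2
  rwa [aeval_X] at this

end Pool.Agent.Results.MP_ab6cf3_nt.TotallyReal
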